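import Pool.Agent.Lib.MP_bc213e_ag.OW.C.Defs

/-! The Hilbert polynomial of the variety on a cone. -/

namespace Pool.Agent.Lib.MP_bc213e_ag.OW

open Pool.Agent.Lib.MP_bc213e_ag.Hyp Pool.Agent.Lib.MP_bc213e_ag.KBB MvPolynomial

variable {K ι : Type} [Field K] [Algebra ℂ K] {x g : ι → Kˣ}

theorem h1z_congr (J : Idl x) {g' : ι → Kˣ} {t t' : ℤ} {a a' : ℕ}
    (h : ∀ i, fr x g t a i = fr x g' t' a' i) (hz : J.H1z g t a) : J.H1z g' t' a' := by
  unfold Idl.H1z Idl.Coc Idl.Cob at hz ⊢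
  rwa [← funext h]

theorem rank_congr (J : Idl x) {g' : ι → Kˣ} {t t' : ℤ} {a a' : ℕ}
    (h : ∀ i, fr x g t a i = fr x g' t' a' i) :
    Module.finrank ℂ (J.H0 g t a) = Module.finrank ℂ (J.H0 g' t' a') := by
  have e1 : J.C0 g t a = J.C0 g' t' a' := Submodule.ext fun s => by
    change (∀ i, s i / fr x g t a i ∈ J.J i) ↔ ∀ i, s i / fr x g' t' a' i ∈ J.J i
    rw [funext h]
  have e2 : J.Z0 g t a = J.Z0 g' t' a' := Submodule.ext fun s => by
    change ((∀ i, s i / fr x g t a i ∈ chart x i) ∧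
      ∀ i l, L2 x J.J i l ((s l - s i) / fr x g t a i)) ↔
      (∀ i, s i / fr x g' t' a' i ∈ chart x i) ∧ ∀ i l, L2 x J.J i l ((s l - s i) / fr x g' t' a' i)
    rw [funext h]
  have k : ∀ C C' Z Z' : Submodule ℂ (ι → K), C = C' → Z = Z' →
      Module.finrank ℂ (Z.map C.mkQ) = Module.finrank ℂ (Z'.map C'.mkQ) := by
    rintro _ _ _ _ rfl rfl
    rfl
  exact k _ _ _ _ e1 e2

theorem exists_twist [Fintype ι] (hc : Cart x g) :
    ∃ k : ℕ, Cart x (fun i => g i * x i ^ k) ∧ Nef x (fun i => g i * x i ^ k) := by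
  choose e he using main_sec hc 1
  have key : ∀ i l, (g i : K) * x i ^ Finset.univ.sup e / (g l * x l ^ Finset.univ.sup e) ∈
      chart x l := fun i l => by
    obtain ⟨c, hc'⟩ := Nat.exists_eq_add_of_le (Finset.le_sup (f := e) (Finset.mem_univ i))
    have := sec_mul (he i) (sec_x x g i c) l
    rw [fr, add_zero, zpow_one, zpow_one, mul_assoc, ← pow_add, ← hc'] at this
    exact this
  refine ⟨Finset.univ.sup e, fun i l => ⟨0, ?_⟩, fun t => ⟨1, one_pos, fun i => ?_⟩⟩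
  · simpa using key i l
  · refine Submodule.subset_span fun l => ?_
    have := mul_mem (pow_mem (key i l) t) (Basic_mem x l i)
    rw [div_pow, div_mul_div_comm] at this
    simpa using this

theorem exists_repC [Fintype ι] (hc : Cart x g) : ∃ Q, RepC x g Q := by
  obtain ⟨k, h1, h2⟩ := exists_twist hc
  obtain ⟨⟨a₀, ha⟩, P, a₁, hP⟩ := good h1 h2 (Idl.bot x)
  refine ⟨bind₁ ![X 0, X 1 - C (k : ℚ) * X 0] P, k, a₀ + a₁, fun t a h => ?_⟩
  obtain ⟨b, rfl⟩ : ∃ b, a = k * t + b := ⟨a - k * t, by omega⟩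
  have e : ∀ i, fr x (fun i => g i * x i ^ k) t b i = fr x g t (k * t + b) i := fun i => by
    simp only [fr, Units.val_mul, Units.val_pow_eq_pow_val, zpow_natCast]
    ring
  refine ⟨h1z_congr _ e (ha t b (by omega)).1, ?_⟩
  rw [hz, ← rank_congr _ e, ev, poly_eval_bind]
  simpa using hP t b (by omega)

end Pool.Agent.Lib.MP_bc213e_ag.OW
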