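import Pool.Agent.Lib.MP_bc213e_ag.OW.C.Defs

/-! Growth of the sections of the hyperplane bundle in dimension at least two. -/

namespace Pool.Agent.Lib.MP_bc213e_ag.OW

open Pool.Agent.Lib.MP_bc213e_ag.Hyp Pool.Agent.Lib.MP_bc213e_ag.KBB MvPolynomial

variable {K ι : Type} [Field K] [Algebra ℂ K] {x g : ι → Kˣ}

theorem dim_two [Fintype ι] (i₀ : ι) (one : x i₀ = 1)
    (gen : IntermediateField.adjoin ℂ (Set.range fun i => (x i : K)) = ⊤) (hc : Cart x g)
    (tr : 2 ≤ Algebra.trdeg ℂ K) (b : ℕ) : ((b : ℚ) + 1) ^ 2 ≤ hz g (Idl.bot x) 0 (2 * b) := by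
  have : Nonempty ι := ⟨i₀⟩
  obtain ⟨n, hn⟩ := hyp_trdeg _ gen
  obtain ⟨y, hy, hb, -⟩ := nn _ gen hn
  have h2 : 2 ≤ n := by exact_mod_cast hn ▸ tr
  let i : Fin n := ⟨0, by omega⟩
  let j : Fin n := ⟨1, by omega⟩
  have hij : i ≠ j := by simp [i, j]
  have hs : ∀ l, Sec x g 0 1 (y l) := fun l => (Submodule.span_le (p := SecS x g 0 1)).2
    (by rintro _ ⟨i, rfl⟩; exact (pow_one (x i : K) ▸ sec_x x g i 1 : Sec x g 0 1 (x i))) (hy l)
  have hp : ∀ l (p : Fin (b + 1)), Sec x g 0 b (y l ^ p.1) := fun l p => by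
    have h := sec_mul (sec_pow (hs l) p) (sec_x x g i₀ (b - p))
    rwa [one, Units.val_one, one_pow, mul_one, mul_one, mul_zero, add_zero,
      Nat.add_sub_cancel' (Nat.lt_succ_iff.1 p.2)] at h
  let m : Fin (b + 1) × Fin (b + 1) → Fin n →₀ ℕ := fun p =>
    Finsupp.single i p.1.1 + Finsupp.single j p.2.1
  have hm : Function.Injective m := fun p q h => by
    have h1 := DFunLike.congr_fun h i
    have h3 := DFunLike.congr_fun h j
    simp only [m, Finsupp.add_apply, Finsupp.single_eq_same, Finsupp.single_eq_of_ne hij,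
      Finsupp.single_eq_of_ne hij.symm, add_zero, zero_add] at h1 h3
    exact Prod.ext (Fin.ext h1) (Fin.ext h3)
  let v : Fin (b + 1) × Fin (b + 1) → SecS x g ((0 : ℕ) : ℤ) (2 * b) := fun p =>
    ⟨y i ^ p.1.1 * y j ^ p.2.1, two_mul b ▸ sec_mul (hp i p.1) (hp j p.2)⟩
  have hl := ((basisMonomials (Fin n) ℂ).linearIndependent.comp m hm).map' (aeval y).toLinearMap
    (LinearMap.ker_eq_bot.2 hb.1)
  have hv : LinearIndependent ℂ v := LinearIndependent.of_comp (SecS x g _ _).subtype (by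
    refine Eq.mp (congrArg (LinearIndependent ℂ ·) (_root_.funext fun p => ?_)) hl
    simp [v, m, aeval_monomial, Finsupp.prod_add_index', pow_add])
  obtain ⟨e⟩ := h0_bot x g ((0 : ℕ) : ℤ) (2 * b)
  have := fd_bot hc ((0 : ℕ) : ℤ) (2 * b)
  have := e.finiteDimensional
  have h3 := hv.fintype_card_le_finrank
  rw [← e.finrank_eq, Fintype.card_prod, Fintype.card_fin, ← sq] at h3
  unfold hz
  exact_mod_cast h3

theorem sec_of_pos [Nonempty ι] {t a : ℕ} (h : 0 < hz g (Idl.bot x) t a) :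
    ∃ s : K, s ≠ 0 ∧ Sec x g t a s := by
  obtain ⟨e⟩ := h0_bot x g t a
  rw [hz, Nat.cast_pos, e.finrank_eq] at h
  have := Module.nontrivial_of_finrank_pos h
  obtain ⟨s, hs⟩ := exists_ne (0 : SecS x g t a)
  exact ⟨s, fun h => hs (Subtype.ext h), s.2⟩

end Pool.Agent.Lib.MP_bc213e_ag.OW
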