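import Pool.Agent.Lib.MP_bc213e_ag.OW.C.PolC

/-! Improving the slope. -/

namespace Pool.Agent.Lib.MP_bc213e_ag.OW

open Pool.Agent.Lib.MP_bc213e_ag.Hyp Pool.Agent.Lib.MP_bc213e_ag.KBB MvPolynomial

theorem ray_pos {P : P2} {d : ℕ} (h : Dg P d) (t a : ℚ)
    (h0 : 0 < ∑ j ∈ Finset.range (d + 1), cf P (d - j) j * t ^ (d - j) * a ^ j) :
    ∃ N₀ : ℕ, ∀ N : ℕ, N₀ ≤ N → 0 < ev P (N * t) (N * a) := by
  obtain ⟨N₀, hN⟩ := sum_pos_of_top
    (fun n => ∑ j ∈ Finset.range (n + 1), cf P (n - j) j * t ^ (n - j) * a ^ j) d h0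
  refine ⟨N₀, fun N h1 => (hN N h1).trans_eq ?_⟩
  have h2 : ∀ j ∈ Finset.range (d + 1), ∑ i ∈ Finset.range (d + 1),
      cf P i j * (N * t) ^ i * (N * a) ^ j =
        ∑ n ∈ Finset.Ico j (d + 1), cf P (n - j) j * t ^ (n - j) * a ^ j * (N : ℚ) ^ n := by
    intro j hj
    rw [Finset.sum_Ico_eq_sum_range]
    symm
    refine (Finset.sum_congr rfl fun i _ => ?_).trans (Finset.sum_subset
      (Finset.range_mono (Nat.sub_le _ _)) fun i _ hi => ?_)
    · rw [Nat.add_sub_cancel_left]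
      ring
    · rw [h i j (by simp at hi hj; omega), zero_mul, zero_mul]
  rw [ev_eq_sum h, Finset.sum_comm, Finset.sum_congr rfl h2]
  simp only [Finset.sum_mul, Finset.range_eq_Ico]
  exact (Finset.sum_Ico_Ico_comm 0 (d + 1) _).symm

theorem top_pos (q : ℕ → ℚ) (e : ℕ) {t a : ℚ} (ht : 0 < t) (ha : 0 < a)
    (h1 : ∀ j, 1 ≤ j → j ≤ e + 2 → 0 ≤ q j) (h2 : 0 ≤ t * (e + 2) * q 0 + a * q 1)
    (h3 : ∃ j, j ≤ e + 2 ∧ q j ≠ 0) :
    0 < ∑ j ∈ Finset.range (e + 2 + 1), q j * (3 * t) ^ (e + 2 - j) * (2 * a) ^ j := by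
  have h4 : ∀ j ∈ Finset.range (e + 1),
      0 ≤ q (j + 1 + 1) * (3 * t) ^ (e + 2 - (j + 1 + 1)) * (2 * a) ^ (j + 1 + 1) := fun j hj => by
    have := h1 (j + 1 + 1) (by omega) (by simp at hj; omega)
    positivity
  have h5 := h1 1 le_rfl (by omega)
  have h6 : (0 : ℚ) < e + 2 := by positivity
  have h7 : (e + 2) * (3 * t * q 0 + 2 * a * q 1) =
      3 * (t * (e + 2) * q 0 + a * q 1) + (2 * e + 1) * a * q 1 := by ring
  have h8 : 0 ≤ 3 * t * q 0 + 2 * a * q 1 := by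
    refine (mul_nonneg_iff_of_pos_left h6).1 ?_
    rw [h7]
    positivity
  have h9 : q (0 + 1) * (3 * t) ^ (e + 2 - (0 + 1)) * (2 * a) ^ (0 + 1) +
      q 0 * (3 * t) ^ (e + 2 - 0) * (2 * a) ^ 0 =
        (3 * t) ^ (e + 1) * (3 * t * q 0 + 2 * a * q 1) := by
    rw [show e + 2 - (0 + 1) = e + 1 from rfl, Nat.sub_zero]
    ring
  rw [Finset.sum_range_succ', Finset.sum_range_succ', add_assoc, h9]
  by_cases h10 : ∀ j ∈ Finset.range (e + 1), q (j + 1 + 1) = 0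
  · refine add_pos_of_nonneg_of_pos (Finset.sum_nonneg h4) (mul_pos (by positivity) ?_)
    rcases h5.eq_or_lt with h11 | h11
    · obtain ⟨j, hj, h12⟩ := h3
      have h13 : q 0 ≠ 0 := by
        match j, hj, h12 with
        | 0, _, h12 => exact h12
        | 1, _, h12 => exact absurd h11.symm h12
        | j + 2, hj, h12 => exact absurd (h10 j (by simp; omega)) h12
      rw [← h11, mul_zero, add_zero] at h8 ⊢
      exact h8.lt_of_ne' (mul_ne_zero (by positivity) h13)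
    · refine (mul_pos_iff_of_pos_left h6).1 ?_
      rw [h7]
      positivity
  · push Not at h10
    obtain ⟨j, hj, h11⟩ := h10
    refine add_pos_of_pos_of_nonneg (Finset.sum_pos' h4 ⟨j, hj, ?_⟩) (by positivity)
    have := (h1 (j + 1 + 1) (by omega) (by simp at hj; omega)).lt_of_ne' h11
    positivity

theorem slope {Q : P2} {t a : ℚ} (ht : 0 < t) (ha : 0 < a) (h1 : TP (sh 0 1 Q - Q))
    (h2 : TP (sh t a Q - Q)) (hd : ¬ Dg Q 1) :
    ∃ N₀ : ℕ, ∀ N : ℕ, N₀ ≤ N → 0 < ev Q (N * (3 * t)) (N * (2 * a)) := by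
  classical
  obtain ⟨e, he⟩ : ∃ e, Nat.find (dg_exists Q) = e + 2 :=
    Nat.exists_eq_add_of_le' (not_lt.1 fun h => hd ((Nat.find_spec (dg_exists Q)).mono (by omega)))
  have h3 : Dg Q (e + 1 + 1) := he ▸ Nat.find_spec (dg_exists Q)
  have h4 : ¬ Dg Q (e + 1) := Nat.find_min (dg_exists Q) (by omega)
  refine ray_pos h3 _ _ (top_pos (fun j => cf Q (e + 2 - j) j) e ht ha ?_ ?_ ?_)
  · rintro (_ | j) h5 h6
    · omega
    have h7 := h1 _ (dg_sh_sub h3 0 1) (e + 2 - (j + 1)) j (by omega)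
    rw [cf_sub, cf_sh_next h3 0 1 (by omega), zero_mul, zero_mul, add_zero, add_sub_cancel_left,
      one_mul] at h7
    exact (mul_nonneg_iff_of_pos_left (by positivity)).1 h7
  · have h7 := h2 _ (dg_sh_sub h3 t a) (e + 1) 0 rfl
    rw [cf_sub, cf_sh_next h3 t a (Nat.add_zero _)] at h7
    push_cast at h7
    rw [show e + 2 - 1 = e + 1 from rfl, Nat.sub_zero]
    linarith
  · by_contra h5
    push Not at h5
    refine h4 fun i j hij => ?_
    rcases (Nat.succ_le_of_lt hij).eq_or_lt with h6 | h6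
    · have h7 := h5 j (by omega)
      rwa [show e + 2 - j = i by omega] at h7
    · exact h3 i j h6

end Pool.Agent.Lib.MP_bc213e_ag.OW
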