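import Pool.Agent.Lib.MP_bc213e_ag.OW.C.Low
import Pool.Agent.Lib.MP_bc213e_ag.OW.C.Cone
import Pool.Agent.Lib.MP_bc213e_ag.OW.C.Dim
import Pool.Agent.Lib.MP_bc213e_ag.OW.C.PolD

/-! Sections of small slope in dimension at least two. -/

namespace Pool.Agent.Lib.MP_bc213e_ag.OW

open Pool.Agent.Lib.MP_bc213e_ag.Hyp Pool.Agent.Lib.MP_bc213e_ag.KBB MvPolynomial

variable {K ι : Type} [Field K] [Algebra ℂ K] {x g : ι → Kˣ}

theorem eff_step [Fintype ι] (i₀ : ι) (one : x i₀ = 1)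
    (gen : IntermediateField.adjoin ℂ (Set.range fun i => (x i : K)) = ⊤) (hc : Cart x g)
    (hb : Below x g) (tr : 2 ≤ Algebra.trdeg ℂ K) {t a : ℕ} (ht : 0 < t) (ha : 0 < a) {f : K}
    (hf : Sec x g t a f) (h0 : f ≠ 0) :
    ∃ N : ℕ, 0 < N ∧ ∃ s : K, s ≠ 0 ∧ Sec x g (N * (3 * t) : ℕ) (N * (2 * a)) s := by
  have : Nonempty ι := ⟨i₀⟩
  obtain ⟨Q, hQ⟩ := exists_repC hc
  have h1 := repC_tp hc hb hQ (t₁ := 0) (a₁ := 1) (sec_x x g i₀ 1) (pow_ne_zero _ (x i₀).ne_zero)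
  rw [Nat.cast_zero, Nat.cast_one] at h1
  have h2 := repC_tp hc hb hQ hf h0
  obtain ⟨a₀, h3⟩ := repC_low hc hb hQ
  obtain ⟨k, a₁, h4⟩ := hQ
  have h5 : ¬ Dg Q 1 := not_dg_one a₁ fun b hb' => by
    have h6 := (h4 0 (2 * b) (by omega)).2
    push_cast at h6
    rw [← h6]
    exact dim_two i₀ one gen hc tr b
  obtain ⟨N₀, h6⟩ := slope (Nat.cast_pos.2 ht) (Nat.cast_pos.2 ha) h1 h2 h5
  refine ⟨N₀ + a₀ + 1, Nat.succ_pos _, sec_of_pos ?_⟩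
  refine lt_of_lt_of_le ?_ (h3 _ _ (by nlinarith))
  have h7 := h6 (N₀ + a₀ + 1) (by omega)
  push_cast at h7 ⊢
  exact h7

theorem eff_two [Fintype ι] (i₀ : ι) (one : x i₀ = 1)
    (gen : IntermediateField.adjoin ℂ (Set.range fun i => (x i : K)) = ⊤) (hc : Cart x g)
    (hb : Below x g) (tr : 2 ≤ Algebra.trdeg ℂ K) : Eff x g := by
  obtain ⟨e, he⟩ := main_sec hc 1 i₀
  have key : ∀ n : ℕ, ∃ t a : ℕ, 0 < t ∧ (n + 2) * a ≤ 2 * e * t ∧
      ∃ s : K, s ≠ 0 ∧ Sec x g t a s := by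
    intro n
    induction n with
    | zero => exact ⟨1, e, one_pos, by omega, _, fr_ne x g 1 e i₀, by exact_mod_cast he⟩
    | succ n ih =>
      obtain ⟨t, a, ht, h1, s, hs, h2⟩ := ih
      rcases Nat.eq_zero_or_pos a with rfl | ha
      · exact ⟨t, 0, ht, Nat.zero_le _, s, hs, h2⟩
      obtain ⟨N, hN, h3⟩ := eff_step i₀ one gen hc hb tr ht ha h2 hs
      refine ⟨_, _, by positivity, ?_, h3⟩
      have h4 : (n + 1 + 2) * (2 * a) ≤ 2 * e * (3 * t) := by nlinarith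
      calc (n + 1 + 2) * (N * (2 * a)) = N * ((n + 1 + 2) * (2 * a)) := by ring
        _ ≤ N * (2 * e * (3 * t)) := Nat.mul_le_mul_left N h4
        _ = 2 * e * (N * (3 * t)) := by ring
  intro T
  obtain ⟨t, a, ht, h1, h2⟩ := key (2 * e * T)
  refine ⟨t, a, ht, ?_, h2⟩
  rcases Nat.eq_zero_or_pos e with rfl | he'
  · have : a = 0 := by omega
    rw [this]
    exact Nat.zero_le _
  · refine Nat.le_of_mul_le_mul_left (c := 2 * e) ?_ (by omega)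
    nlinarith

end Pool.Agent.Lib.MP_bc213e_ag.OW
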