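import Pool.Agent.Lib.MP_bc213e_ag.OW.C.Defs

/-! Base loci: powers, products and cutting by a section. -/

namespace Pool.Agent.Lib.MP_bc213e_ag.OW

open Pool.Agent.Lib.MP_bc213e_ag.Hyp Pool.Agent.Lib.MP_bc213e_ag.KBB MvPolynomial

variable {K ι : Type} [Field K] [Algebra ℂ K] {x g : ι → Kˣ}

theorem gen_div {t : ℤ} {a : ℕ} {i : ι} {u : K}
    (h : u ∈ Submodule.span (chart x i) {s | Sec x g t a s}) : u / fr x g t a i ∈ chart x i := by
  induction h using Submodule.span_induction with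
  | mem s hs => exact hs i
  | zero =>
    rw [zero_div]
    exact zero_mem _
  | add _ _ _ _ h1 h2 =>
    rw [add_div]
    exact add_mem h1 h2
  | smul c _ _ h1 =>
    rw [Subalgebra.smul_def, smul_eq_mul, mul_div_assoc]
    exact mul_mem c.2 h1

theorem gen_span_mul {t t' : ℤ} {a a' : ℕ} {i : ι} {u u' : K}
    (h : u ∈ Submodule.span (chart x i) {s | Sec x g t a s})
    (h' : u' ∈ Submodule.span (chart x i) {s | Sec x g t' a' s}) :
    u * u' ∈ Submodule.span (chart x i) {s | Sec x g (t + t') (a + a') s} := by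
  induction h, h' using Submodule.span_induction₂ with
  | mem_mem s s' hs hs' => exact Submodule.subset_span (sec_mul hs hs')
  | zero_left =>
    rw [zero_mul]
    exact zero_mem _
  | zero_right =>
    rw [mul_zero]
    exact zero_mem _
  | add_left _ _ _ _ _ _ h1 h2 =>
    rw [add_mul]
    exact add_mem h1 h2
  | add_right _ _ _ _ _ _ h1 h2 =>
    rw [mul_add]
    exact add_mem h1 h2
  | smul_left c _ _ _ _ h1 =>
    rw [smul_mul_assoc]
    exact Submodule.smul_mem _ c h1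
  | smul_right c _ _ _ _ h1 =>
    rw [mul_smul_comm]
    exact Submodule.smul_mem _ c h1

theorem gen_pow {J : Idl x} {t a : ℕ} (h : Gen g J t a) (m : ℕ) : Gen g J (m * t) (m * a) := by
  induction m with
  | zero =>
    intro i
    refine ⟨1, Submodule.subset_span (by simpa using sec_one x g), ?_⟩
    simp [fr]
  | succ m ih =>
    intro i
    obtain ⟨u, hu, h1⟩ := ih i
    obtain ⟨u', hu', h2⟩ := h i
    rw [add_one_mul, add_one_mul, Nat.cast_add]
    refine ⟨u * u', gen_span_mul hu hu', ?_⟩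
    have h3 := add_mem h1 (J.mul i _ (gen_div hu) _ h2)
    rwa [mul_sub, mul_one, sub_add_sub_cancel, div_mul_div_comm, ← fr_add] at h3

theorem gen_ext (hc : Cart x g) {J : Idl x} {t₀ : ℤ} {a₀ : ℕ} {f : K} (hf : Sec x g t₀ a₀ f)
    {t a : ℕ} (h1 : Gen g (J.colon hc hf) t a) (h2 : Gen g (J.adj hc hf) t a) : Gen g J t a := by
  intro i
  obtain ⟨u₁, hu₁, h3, h4⟩ := h1 i
  obtain ⟨u₂, hu₂, s, hs, h5⟩ := h2 i
  refine ⟨u₁ + u₂ - (⟨_, gen_div hu₁⟩ : chart x i) • u₂,
    sub_mem (add_mem hu₁ hu₂) (Submodule.smul_mem _ _ hu₂), ?_⟩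
  have h6 := add_mem (J.mul i _ h3 _ h5) (J.mul i _ hs _ h4)
  have e : 1 - (u₁ + u₂ - (⟨_, gen_div hu₁⟩ : chart x i) • u₂) / fr x g t a i =
      (1 - u₁ / fr x g t a i) * (1 - u₂ / fr x g t a i - s * (f / fr x g t₀ a₀ i)) +
        s * ((1 - u₁ / fr x g t a i) * (f / fr x g t₀ a₀ i)) := by
    rw [Subalgebra.smul_def, smul_eq_mul]
    ring
  rwa [e]

theorem gen_adj (hc : Cart x g) {J : Idl x} {t a : ℕ} {f : K} (hf : Sec x g t a f) (m : ℕ)
    (h : Gen g (J.adj hc hf) (m * t) (m * a)) : Gen g J (m * t) (m * a) := by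
  intro i
  obtain ⟨u, hu, r, hr, h1⟩ := h i
  obtain ⟨j, hj⟩ : ∃ j, j = 1 - u / fr x g (m * t : ℕ) (m * a) i - r * (f / fr x g t a i) :=
    ⟨_, rfl⟩
  rw [← hj] at h1
  have h2 : r * (f / fr x g t a i) ∈ chart x i := mul_mem hr (hf i)
  obtain ⟨G, hG⟩ := sub_dvd_pow_sub_pow (1 : chart x i) ⟨_, h2⟩ m
  have h3 : 1 - (r * (f / fr x g t a i)) ^ m = (1 - r * (f / fr x g t a i)) * G := by
    simpa using congrArg Subtype.val hG
  have h4 : fr x g (m * t : ℕ) (m * a) i = fr x g t a i ^ m := by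
    rw [fr, fr, zpow_natCast, zpow_natCast, mul_pow, ← pow_mul, ← pow_mul, mul_comm t, mul_comm a]
  have h5 : Sec x g (m * t : ℕ) (m * a) (f ^ m) := by
    rw [Nat.cast_mul]
    exact sec_pow hf m
  refine ⟨G • u + (⟨r ^ m, pow_mem hr m⟩ : chart x i) • f ^ m, add_mem
    (Submodule.smul_mem _ _ hu) (Submodule.smul_mem _ _ (Submodule.subset_span h5)), ?_⟩
  have e : 1 - (G • u + (⟨r ^ m, pow_mem hr m⟩ : chart x i) • f ^ m) /
      fr x g (m * t : ℕ) (m * a) i = G * j := by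
    rw [hj, Subalgebra.smul_def, Subalgebra.smul_def, smul_eq_mul, smul_eq_mul, add_div,
      mul_div_assoc (r ^ m), h4, ← div_pow, ← mul_pow]
    linear_combination h3
  rw [e]
  exact J.mul i _ G.2 _ h1

theorem free_of_gen {t a : ℕ} (h : Gen g (Idl.bot x) t a) : Free x g t a := by
  intro i
  obtain ⟨u, hu, h1⟩ := h i
  rwa [(div_eq_one_iff_eq (fr_ne x g t a i)).1 (sub_eq_zero.1 (mem_bot.1 h1)).symm] at hu

end Pool.Agent.Lib.MP_bc213e_ag.OW
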