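import Pool.Agent.Lib.MP_bc213e_ag.OW.C.Defs

/-! A section that does not vanish on a given subvariety. -/

namespace Pool.Agent.Lib.MP_bc213e_ag.OW

open Pool.Agent.Lib.MP_bc213e_ag.Hyp Pool.Agent.Lib.MP_bc213e_ag.KBB MvPolynomial

variable {K ι : Type} [Field K] [Algebra ℂ K] {x g : ι → Kˣ}

theorem rd_z0 {J : Idl x} {F : Type} [Field F] [Algebra ℂ F] (R : Rd x g J F) (hc : Cart x g)
    {t : ℤ} {a : ℕ} {s' : F} (hs : Sec R.x' R.g' t a s') :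
    ∃ σ ∈ J.Z0 g t a, R.ρ (σ R.i₀ / fr x g t a R.i₀) = s' := by
  classical
  choose r hr hr' using fun i => R.surj_chart i (sec_iff_fr.1 hs i)
  obtain ⟨η, hη, hη'⟩ : ∃ η : ι → K, (∀ i, η i / fr x g t a i ∈ chart x i) ∧
      ∀ i : {i // (1 : K) ∉ J.J i}, η i / fr x g t a i = r i := by
    refine ⟨fun i => if h : (1 : K) ∉ J.J i then r ⟨i, h⟩ * fr x g t a i else 0,
      fun i => ?_, fun i => ?_⟩
    · dsimp only
      split_ifs with h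
      · rw [zero_div]
        exact zero_mem _
      · rw [mul_div_cancel_right₀ _ (fr_ne _ _ _ _ _)]
        exact hr ⟨i, h⟩
    · dsimp only
      rw [dif_pos i.2, mul_div_cancel_right₀ _ (fr_ne _ _ _ _ _)]
  have h4 : ∀ j : {i // (1 : K) ∉ J.J i}, R.ρ (η j / fr x g t a R.i₀) = s' := fun j => by
    rw [(kill_fr R j (R.le j _ (hη j))).2, hη', hr', div_mul_cancel₀ _ (fr_ne _ _ _ _ _)]
  refine ⟨η, ⟨hη, fun i l => ?_⟩, h4 _⟩
  have h1 : L2 x (OX x) i l ((η l - η i) / fr x g t a i) := by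
    rw [sub_div, sub_eq_add_neg]
    exact (Idl.top x).l2_add ((Idl.top x).l2_fr hc ((Idl.top x).l2_of_mem i (hη l)))
      ((Idl.top x).l2_neg ((Idl.top x).l2_of_mem l (hη i)))
  by_cases hi : (1 : K) ∈ J.J i
  · have h2 := J.l2_mul h1 (J.l2_of_mem l hi)
    rwa [mul_one] at h2
  by_cases hl : (1 : K) ∈ J.J l
  · have h2 := J.l2_mul h1 (J.l2_symm (J.l2_of_mem i hl))
    rwa [mul_one] at h2
  obtain ⟨h2, -, h3⟩ := kill_l2 R ⟨i, hi⟩ ⟨l, hl⟩ h1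
  refine h3 ((mul_eq_zero.1 ?_).resolve_right (fr_ne R.x' R.g' t a ⟨i, hi⟩))
  rw [← (kill_fr R ⟨i, hi⟩ h2).2, sub_div, map_sub, h4 ⟨l, hl⟩, h4 ⟨i, hi⟩, sub_self]

theorem not_has_nz {J : Idl x} {F : Type} [Field F] [Algebra ℂ F] (R : Rd x g J F)
    (hc : Cart x g) (hn : Nef R.x' R.g') (t : ℕ) (hl : LiftC g (t + 1) J) :
    ∃ N : ℕ, 0 < N ∧ ∃ s : K, Sec x g (N * t : ℕ) N s ∧ ¬ J.Has g (N * t : ℕ) N s := by
  obtain ⟨N, hN, hF⟩ := hn t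
  obtain ⟨a₀, hl⟩ := hl
  obtain ⟨s', hs', h0⟩ : ∃ s' : F, Sec R.x' R.g' (N * t) N s' ∧ s' ≠ 0 := by
    by_contra h
    push Not at h
    have h1 := hF R.i₀
    rw [(Submodule.span_eq_bot (s := {s | Sec R.x' R.g' (N * t) N s})).2 h, Submodule.mem_bot] at h1
    exact fr_ne R.x' R.g' (N * t) N R.i₀ h1
  set m := (t + 1) * a₀ + 1 with hm
  have h1 := sec_pow hs' m
  rw [show (m : ℤ) * (N * t) = ((m * N * t : ℕ) : ℤ) by push_cast; ring] at h1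
  obtain ⟨σ, hσ, hρ⟩ := rd_z0 R hc h1
  obtain ⟨s, hs, h2⟩ := hl (m * N * t) (m * N) (by
    have : m ≤ m * N := Nat.le_mul_of_pos_right _ hN
    nlinarith) σ hσ
  refine ⟨m * N, Nat.mul_pos (Nat.succ_pos _) hN, s, hs, fun h => pow_ne_zero m h0 ?_⟩
  have h3 := (R.ker R.i₀ _ (J.le _ _ (h2 R.i₀))).2 (h2 R.i₀)
  rwa [sub_div, map_sub, hρ, (R.has_iff hs).1 h, sub_zero] at h3

theorem not_has_bot [Nonempty ι] (he : Eff x g) (t : ℕ) :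
    ∃ N : ℕ, 0 < N ∧ ∃ s : K, Sec x g (N * t : ℕ) N s ∧ ¬ (Idl.bot x).Has g (N * t : ℕ) N s := by
  obtain ⟨i⟩ := ‹Nonempty ι›
  have : Nonempty ι := ⟨i⟩
  obtain ⟨t₁, a₁, h1, h2, f, h0, hf⟩ := he t
  have h3 := sec_mul (sec_pow hf t) (sec_x x g i (t₁ - t * a₁))
  rw [add_zero, Nat.add_sub_cancel' h2, show (t : ℤ) * t₁ = ((t₁ * t : ℕ) : ℤ) by push_cast; ring]
    at h3
  exact ⟨t₁, h1, _, h3, fun h =>
    mul_ne_zero (pow_ne_zero _ h0) (pow_ne_zero _ (x i).ne_zero) (has_bot.1 h)⟩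

end Pool.Agent.Lib.MP_bc213e_ag.OW
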