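import Pool.Agent.Lib.MP_bc213e_ag.OW.C.Van
import Pool.Agent.Lib.MP_bc213e_ag.OW.C.GenA
import Pool.Agent.Lib.MP_bc213e_ag.OW.C.GenB

/-! The base locus is empty. -/

namespace Pool.Agent.Lib.MP_bc213e_ag.OW

open Pool.Agent.Lib.MP_bc213e_ag.Hyp Pool.Agent.Lib.MP_bc213e_ag.KBB MvPolynomial

variable {K ι : Type} [Field K] [Algebra ℂ K] {x g : ι → Kˣ}

theorem nef_of_eff [Fintype ι] [Nonempty ι] (hc : Cart x g) (hb : Below x g) (he : Eff x g) :
    Nef x g := by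
  intro t
  have key : ∀ J : Idl x, ∃ N : ℕ, 0 < N ∧ Gen g J (N * t) N := by
    refine Idl.induction _ fun J ih => ?_
    by_cases h : ∀ i, (1 : K) ∈ J.J i
    · refine ⟨1, one_pos, fun i => ⟨0, zero_mem _, ?_⟩⟩
      rw [zero_div, sub_zero]
      exact h i
    obtain ⟨i₀, h0⟩ := not_forall.1 h
    by_cases hp : J.Prime g
    · obtain ⟨N, hN, s, hs, hn⟩ : ∃ N : ℕ, 0 < N ∧ ∃ s : K, Sec x g (N * t : ℕ) N s ∧
          ¬ J.Has g (N * t : ℕ) N s := by
        by_cases hJ : NZ J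
        · obtain ⟨F, _, _, ⟨R⟩⟩ := exists_rd hc J hp h0
          exact not_has_nz R hc (hb J hp hJ F R) t
            (liftC_all hc t.succ_pos (h1C_all hc hb he t.succ_pos) J)
        · rw [eq_bot_of_not_nz hJ]
          exact not_has_bot he t
      obtain ⟨N', hN', h1⟩ := ih _ (J.le_adj hc hs) (main_adj hc J hs hn)
      have h2 := gen_pow h1 N
      rw [mul_left_comm N N' t, mul_comm N N'] at h2
      refine ⟨N' * N, mul_pos hN' hN, ?_⟩
      rw [mul_assoc]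
      exact gen_adj hc hs N' h2
    obtain ⟨a, f, hf, h1, h2⟩ := not_prime hc hp
    obtain ⟨N₁, p1, g1⟩ := ih _ (J.le_colon hc hf) h1
    obtain ⟨N₂, p2, g2⟩ := ih _ (J.le_adj hc hf) h2
    have g3 := gen_pow g1 N₂
    have g4 := gen_pow g2 N₁
    rw [← mul_assoc] at g3
    rw [← mul_assoc, mul_comm N₁ N₂] at g4
    exact ⟨N₂ * N₁, mul_pos p2 p1, gen_ext hc hf g3 g4⟩
  obtain ⟨N, hN, h⟩ := key (Idl.bot x)
  exact ⟨N, hN, by simpa only [Nat.cast_mul] using free_of_gen h⟩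

end Pool.Agent.Lib.MP_bc213e_ag.OW
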