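import Pool.Agent.Lib.MP_bc213e_ag.OW.C.Defs
import Pool.Agent.Lib.MP_bc213e_ag.OW.D.Main

/-! Restriction of the hypothesis on curves; points and curves. -/

namespace Pool.Agent.Lib.MP_bc213e_ag.OW

open Pool.Agent.Lib.MP_bc213e_ag.Hyp Pool.Agent.Lib.MP_bc213e_ag.KBB MvPolynomial

variable {K ι : Type} [Field K] [Algebra ℂ K] {x g : ι → Kˣ}

theorem sp_comp {J : Idl x} {F : Type} [Field F] [Algebra ℂ F] (R : Rd x g J F)
    {E κ : Type} [Field E] [Algebra ℂ E] {y γ : κ → Eˣ} (S : Sp R.x' R.g' y γ) :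
    Nonempty (Sp x g y γ) := by
  have hg : ∀ i l : {i // (1 : K) ∉ J.J i}, (g i : K) / g l ∈ R.O ∧
      R.ρ ((g i : K) / g l) = (R.g' i : F) / R.g' l := fun i l => by
    have h := R.ρ_div (R.g_mem i) (R.g_mem l) (by rw [R.ρ_g]; exact (R.g' l).ne_zero)
    rwa [div_div_div_cancel_right₀ (g R.i₀).ne_zero, R.ρ_g, R.ρ_g] at h
  refine ⟨{
    e := fun k => (S.e k).1
    k₀ := S.k₀
    O :=
      { carrier := {r | r ∈ R.O ∧ R.ρ r ∈ S.O}
        mul_mem' := fun ha hb => ⟨mul_mem ha.1 hb.1, by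
          rw [R.ρ_mul _ ha.1 _ hb.1]
          exact mul_mem ha.2 hb.2⟩
        add_mem' := fun ha hb => ⟨add_mem ha.1 hb.1, by
          rw [map_add]
          exact add_mem ha.2 hb.2⟩
        algebraMap_mem' := fun c => ⟨R.O.algebraMap_mem c, by
          rw [R.res2_c]
          exact S.O.algebraMap_mem c⟩ }
    ρ := S.ρ ∘ₗ R.ρ
    gen := S.gen
    ρ_one := by rw [LinearMap.comp_apply, R.ρ_one, S.ρ_one]
    ρ_mul := fun a ha b hb => by
      rw [LinearMap.comp_apply, R.ρ_mul _ ha.1 _ hb.1, S.ρ_mul _ ha.2 _ hb.2]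
      rfl
    inv := fun r hr h0 => ?_
    le := fun k r hr => ⟨R.le _ r hr, S.le k _ (R.map_chart _ hr)⟩
    ρ_x := fun k => by rw [LinearMap.comp_apply, R.ρ_xx, S.ρ_x]
    ρ_x0 := fun i hi => ?_
    g_mem := fun k => ⟨(hg _ _).1, by
      rw [(hg _ _).2]
      exact S.g_mem k⟩
    ρ_g := fun k => by rw [LinearMap.comp_apply, (hg _ _).2, S.ρ_g] }⟩
  · have h1 : R.ρ r ≠ 0 := fun h => h0 (by rw [LinearMap.comp_apply, h, map_zero])
    have h2 := R.ρ_div (one_mem _) hr.1 h1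
    rw [one_div, R.ρ_one, one_div] at h2
    refine ⟨h2.1, ?_⟩
    rw [h2.2]
    exact S.inv _ hr.2 h0
  · rw [LinearMap.comp_apply]
    by_cases h : (1 : K) ∈ J.J i
    · rw [R.res2_xx, R.ρ_x0 i h, zero_div, map_zero]
    · rw [R.ρ_xx (S.e S.k₀) ⟨i, h⟩]
      exact S.ρ_x0 _ fun ⟨k, hk⟩ => hi ⟨k, congrArg Subtype.val hk⟩

theorem cn_rd {J : Idl x} {F : Type} [Field F] [Algebra ℂ F] (R : Rd x g J F) (hn : CN x g) :
    CN R.x' R.g' := by
  intro E κ _ _ _ y γ ⟨S⟩ tr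
  exact hn E κ y γ (sp_comp R S) tr

theorem eff_one [Fintype ι] (i₀ : ι) (one : x i₀ = 1)
    (gen : IntermediateField.adjoin ℂ (Set.range fun i => (x i : K)) = ⊤) (hc : Cart x g)
    (hn : CN x g) (tr : Algebra.trdeg ℂ K = 1) : Eff x g := by
  have hd : DegNN x fun i => g i / g i₀ := hn K ι x _ ⟨{
    e := id
    k₀ := i₀
    O := ⊤
    ρ := LinearMap.id
    gen := gen
    ρ_one := rfl
    ρ_mul := fun _ _ _ _ => rfl
    inv := fun _ _ _ => Algebra.mem_top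
    le := fun _ _ _ => Algebra.mem_top
    ρ_x := fun k => by simp [one]
    ρ_x0 := fun i hi => (hi ⟨i, rfl⟩).elim
    g_mem := fun _ => Algebra.mem_top
    ρ_g := fun k => by simp }⟩ tr
  have hc' : Cart x fun i => g i / g i₀ := fun i j => by
    simpa only [Units.val_div_eq_div_val, div_div_div_cancel_right₀ (g i₀).ne_zero] using hc i j
  obtain ⟨a, h⟩ := curve_eff x _ i₀ one gen tr hc' hd
  intro T
  obtain ⟨s, hs, h1⟩ := h (T * a + 1)
  refine ⟨T * a + 1, a, Nat.succ_pos _, Nat.le_succ _, s * (g i₀ : K) ^ ((T * a + 1 : ℕ) : ℤ),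
    mul_ne_zero hs (zpow_ne_zero _ (g i₀).ne_zero), fun i => ?_⟩
  have h2 := h1 i
  rwa [Units.val_div_eq_div_val, div_zpow, div_mul_eq_mul_div, div_div_eq_mul_div] at h2

theorem eff_zero (x g : ι → Kˣ) (tr : Algebra.trdeg ℂ K = 0) : Eff x g := by
  have := trdeg_eq_zero_iff.1 tr
  refine fun T => ⟨1, 0, one_pos, Nat.zero_le _, 1, one_ne_zero, fun i => ?_⟩
  obtain ⟨c, hc⟩ := (IsAlgClosed.algebraMap_bijective_of_isIntegral (k := ℂ) (K := K)).2
    (1 / ((g i : K) ^ ((1 : ℕ) : ℤ) * (x i : K) ^ 0))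
  rw [← hc]
  exact (chart x i).algebraMap_mem c

end Pool.Agent.Lib.MP_bc213e_ag.OW
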