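import Pool.Agent.Lib.MP_bc213e_ag.OW.C.Tr
import Pool.Agent.Lib.MP_bc213e_ag.OW.C.SpC
import Pool.Agent.Lib.MP_bc213e_ag.OW.C.EffT
import Pool.Agent.Lib.MP_bc213e_ag.OW.C.Nef

/-! Kleiman's theorem. -/

namespace Pool.Agent.Lib.MP_bc213e_ag.OW

open Pool.Agent.Lib.MP_bc213e_ag.Hyp Pool.Agent.Lib.MP_bc213e_ag.KBB WithZero

theorem kleiman_ind (n : ℕ) : ∀ (K ι : Type) [Field K] [Algebra ℂ K] [Fintype ι] (x g : ι → Kˣ)
    (i₀ : ι), x i₀ = 1 → IntermediateField.adjoin ℂ (Set.range fun i => (x i : K)) = ⊤ →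
      Cart x g → CN x g → Algebra.trdeg ℂ K = n → Nef x g := by
  induction n using Nat.strong_induction_on with
  | _ n ih =>
    intro K ι _ _ _ x g i₀ one gen hc hn tr
    have : Nonempty ι := ⟨i₀⟩
    have hb : Below x g := fun J _ hJ F _ _ R => by
      classical
      obtain ⟨m, h1, h2⟩ := rd_trdeg R hJ
      rw [tr, Nat.cast_le] at h2
      exact ih m h2 F _ R.x' R.g' R.i₀ R.one R.gen (R.cart hc) (cn_rd R hn) h1
    refine nef_of_eff hc hb ?_
    match n, tr with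
    | 0, tr => exact eff_zero x g tr
    | 1, tr => exact eff_one i₀ one gen hc hn (tr.trans Nat.cast_one)
    | m + 2, tr =>
      refine eff_two i₀ one gen hc hb ?_
      rw [tr]
      exact_mod_cast Nat.le_add_left 2 m

theorem kleiman {K ι : Type} [Field K] [Algebra ℂ K] [Fintype ι] (x g : ι → Kˣ) (i₀ : ι)
    (one : x i₀ = 1) (gen : IntermediateField.adjoin ℂ (Set.range fun i => (x i : K)) = ⊤)
    (hc : Cart x g) (hn : CN x g) : Nef x g := by
  obtain ⟨n, h⟩ := hyp_trdeg _ gen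
  exact kleiman_ind n K ι x g i₀ one gen hc hn h

end Pool.Agent.Lib.MP_bc213e_ag.OW
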