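import Pool.Agent.Lib.MP_bc213e_ag.OW.IDefs
import Pool.Agent.Lib.MP_bc213e_ag.KBB.Lift

/-! Definitions and basic facts for Kleiman's theorem. -/

namespace Pool.Agent.Lib.MP_bc213e_ag.OW

open Pool.Agent.Lib.MP_bc213e_ag.Hyp Pool.Agent.Lib.MP_bc213e_ag.KBB MvPolynomial

noncomputable section

/-- Polynomials in `(t, a)`. -/
abbrev P2 : Type := MvPolynomial (Fin 2) ℚ

/-- The coefficient of `t ^ i * a ^ j`. -/
def cf (P : P2) (i j : ℕ) : ℚ := coeff (Finsupp.single 0 i + Finsupp.single 1 j) P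

/-- The value at `(t, a)`. -/
def ev (P : P2) (t a : ℚ) : ℚ := eval ![t, a] P

/-- The degree is at most `d`. -/
def Dg (P : P2) (d : ℕ) : Prop := ∀ i j, d < i + j → cf P i j = 0

/-- The coefficients of top degree are nonnegative. -/
def TP (P : P2) : Prop := ∀ d, Dg P d → ∀ i j, i + j = d → 0 ≤ cf P i j

/-- The polynomial `P (t + u, a + v)`. -/
def sh (u v : ℚ) (P : P2) : P2 := bind₁ ![X 0 + C u, X 1 + C v] P

theorem ev_add (P Q : P2) (t a : ℚ) : ev (P + Q) t a = ev P t a + ev Q t a := map_add _ _ _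

theorem ev_sub (P Q : P2) (t a : ℚ) : ev (P - Q) t a = ev P t a - ev Q t a := map_sub _ _ _

theorem ev_zero (t a : ℚ) : ev 0 t a = 0 := map_zero _

theorem ev_sh (u v : ℚ) (P : P2) (t a : ℚ) : ev (sh u v P) t a = ev P (t + u) (a + v) := by
  rw [ev, sh, poly_eval_bind]
  simp [ev]

theorem cf_add (P Q : P2) (i j : ℕ) : cf (P + Q) i j = cf P i j + cf Q i j := coeff_add _ _ _

theorem cf_sub (P Q : P2) (i j : ℕ) : cf (P - Q) i j = cf P i j - cf Q i j := coeff_sub _ _ _ _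

theorem cf_zero (i j : ℕ) : cf 0 i j = 0 := coeff_zero _

theorem Dg.mono {P : P2} {d d' : ℕ} (h : Dg P d) (hd : d ≤ d') : Dg P d' :=
  fun i j hij => h i j (by omega)

variable {K ι : Type} [Field K] [Algebra ℂ K] {x g : ι → Kˣ}

/-- The ideal sheaf is not zero. -/
def NZ (J : Idl x) : Prop := ∃ i, ∃ r ∈ J.J i, r ≠ 0

/-- `L` is nef on all proper integral subvarieties. -/
def Below (x g : ι → Kˣ) : Prop :=
  ∀ J : Idl x, J.Prime g → NZ J → ∀ (F : Type) [Field F] [Algebra ℂ F] (R : Rd x g J F),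
    Nef R.x' R.g'

/-- The dimension of the space of sections of `(O / J)(t L + a H)`. -/
def hz (g : ι → Kˣ) (J : Idl x) (t a : ℕ) : ℚ := (Module.finrank ℂ (J.H0 g t a) : ℚ)

/-- `P` is the Hilbert polynomial of `O / J` for `a ≥ a₀`. -/
def Rep (g : ι → Kˣ) (J : Idl x) (P : P2) : Prop :=
  ∃ a₀ : ℕ, ∀ t a : ℕ, a₀ ≤ a → hz g J t a = ev P t a

/-- `Q` is the Hilbert polynomial of `X` on a cone, on which the first cohomology vanishes. -/
def RepC (x g : ι → Kˣ) (Q : P2) : Prop :=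
  ∃ k a₀ : ℕ, ∀ t a : ℕ, k * t + a₀ ≤ a →
    (Idl.bot x).H1z g t a ∧ hz g (Idl.bot x) t a = ev Q t a

/-- `L + ε H` has a section for arbitrarily small `ε`. -/
def Eff (x g : ι → Kˣ) : Prop :=
  ∀ T : ℕ, ∃ t a : ℕ, 0 < t ∧ T * a ≤ t ∧ ∃ s : K, s ≠ 0 ∧ Sec x g t a s

/-- The first cohomology of `(O / J)(t L + a H)` vanishes for `a ≥ a₀ + t / T`. -/
def H1C (g : ι → Kˣ) (T : ℕ) (J : Idl x) : Prop :=
  ∃ a₀ : ℕ, ∀ t a : ℕ, t + T * a₀ ≤ T * a → J.H1z g t a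

/-- Sections of `(O / J)(t L + a H)` lift for `a ≥ a₀ + t / T`. -/
def LiftC (g : ι → Kˣ) (T : ℕ) (J : Idl x) : Prop :=
  ∃ a₀ : ℕ, ∀ t a : ℕ, t + T * a₀ ≤ T * a → ∀ s ∈ J.Z0 g t a,
    ∃ s' : K, Sec x g t a s' ∧ ∀ i, (s i - s') / fr x g t a i ∈ J.J i

/-- The sections of `t L + a H` have no common zero on the zero set of `J`. -/
def Gen (g : ι → Kˣ) (J : Idl x) (t a : ℕ) : Prop :=
  ∀ i, ∃ u ∈ Submodule.span (chart x i) {s | Sec x g t a s}, 1 - u / fr x g t a i ∈ J.J i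

theorem sec_mul {t t' : ℤ} {a a' : ℕ} {s s' : K} (h : Sec x g t a s) (h' : Sec x g t' a' s') :
    Sec x g (t + t') (a + a') (s * s') := fun i => by
  have h1 := mul_mem (sec_iff_fr.1 h i) (sec_iff_fr.1 h' i)
  rwa [div_mul_div_comm, ← fr_add] at h1

theorem sec_one (x g : ι → Kˣ) : Sec x g 0 0 1 := fun i => by
  rw [zpow_zero, pow_zero, mul_one, div_one]
  exact one_mem _

theorem sec_pow {t : ℤ} {a : ℕ} {s : K} (h : Sec x g t a s) (m : ℕ) :
    Sec x g (m * t) (m * a) (s ^ m) := by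
  induction m with
  | zero => simpa using sec_one x g
  | succ m ih =>
    have h1 := sec_mul ih h
    rwa [← pow_succ, ← add_one_mul, ← add_one_mul, ← Nat.cast_succ] at h1

theorem sec_x (x g : ι → Kˣ) (i : ι) (a : ℕ) : Sec x g 0 a ((x i : K) ^ a) := fun l => by
  rw [zpow_zero, one_mul, ← div_pow]
  exact pow_mem (Basic_mem x l i) a

theorem NZ.mono {J J' : Idl x} (h : NZ J) (hle : ∀ i, J.J i ≤ J'.J i) : NZ J' := by
  obtain ⟨i, r, hr, h0⟩ := h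
  exact ⟨i, r, hle i hr, h0⟩

theorem nz_of_gt {J J' : Idl x} (h : ∃ i, ∃ r ∈ J'.J i, r ∉ J.J i) : NZ J' := by
  obtain ⟨i, r, hr, h0⟩ := h
  exact ⟨i, r, hr, fun h => h0 (h ▸ zero_mem _)⟩

theorem eq_bot_of_not_nz {J : Idl x} (h : ¬ NZ J) : J = Idl.bot x :=
  main_ext fun i => le_antisymm (fun r hr => by
    by_contra h0
    exact h ⟨i, r, hr, h0⟩) bot_le

theorem mem_bot {i : ι} {r : K} : r ∈ (Idl.bot x).J i ↔ r = 0 := Iff.rfl

theorem has_bot [Nonempty ι] {t : ℤ} {a : ℕ} {f : K} : (Idl.bot x).Has g t a f ↔ f = 0 := by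
  obtain ⟨i⟩ := ‹Nonempty ι›
  refine ⟨fun h => (div_eq_zero_iff.1 (mem_bot.1 (h i))).resolve_right (fr_ne x g t a i), ?_⟩
  rintro rfl l
  rw [zero_div]
  exact zero_mem _

theorem prime_bot [Nonempty ι] : (Idl.bot x).Prime g := fun _ _ _ _ _ _ h => by
  rw [has_bot] at h
  rw [has_bot, has_bot]
  exact mul_eq_zero.1 h

theorem colon_bot (hc : Cart x g) {t : ℤ} {a : ℕ} {f : K} (hf : Sec x g t a f) (h0 : f ≠ 0) :
    (Idl.bot x).colon hc hf = Idl.bot x :=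
  main_ext fun i => le_antisymm (fun _ hr => (mul_eq_zero.1 (mem_bot.1
    (((Idl.bot x).mem_colon hc hf).1 hr).2)).resolve_right (div_ne_zero h0 (fr_ne x g t a i)))
    bot_le

theorem nz_adj [Nonempty ι] (hc : Cart x g) (J : Idl x) {t : ℤ} {a : ℕ} {f : K}
    (hf : Sec x g t a f) (h0 : f ≠ 0) : NZ (J.adj hc hf) := by
  obtain ⟨i⟩ := ‹Nonempty ι›
  exact ⟨i, _, J.self_mem_adj hc hf i, div_ne_zero h0 (fr_ne x g t a i)⟩

theorem fd_bot [Fintype ι] [Nonempty ι] (hc : Cart x g) (t : ℤ) (a : ℕ) :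
    FiniteDimensional ℂ ((Idl.bot x).H0 g t a) := by
  obtain ⟨i⟩ := ‹Nonempty ι›
  have : Nonempty ι := ⟨i⟩
  obtain ⟨F, _, _, ⟨R⟩⟩ := exists_rd hc (Idl.bot x) prime_bot (i₀ := i) one_ne_zero
  exact R.fd hc t a

/-- An ideal sheaf that is not prime has two strictly larger ones, `J : f` and `J + (f)`. -/
theorem not_prime (hc : Cart x g) {J : Idl x} (hp : ¬ J.Prime g) :
    ∃ (a : ℕ) (f : K) (hf : Sec x g 0 a f), (∃ i, ∃ r ∈ (J.colon hc hf).J i, r ∉ J.J i) ∧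
      ∃ i, ∃ r ∈ (J.adj hc hf).J i, r ∉ J.J i := by
  unfold Idl.Prime at hp
  push Not at hp
  obtain ⟨a, b, f, f', hf, hf', hh, n1, n2⟩ := hp
  refine ⟨a, f, hf, ?_, main_adj hc J hf n1⟩
  obtain ⟨i, hi⟩ := not_forall.1 n2
  refine ⟨i, _, (J.mem_colon hc hf).2 ⟨hf' i, ?_⟩, hi⟩
  have h1 := hh i
  have e1 := fr_add x g 0 0 a b i
  rw [add_zero] at e1
  rw [e1, mul_div_mul_comm, mul_comm] at h1
  exact h1

theorem colon_prime {J : Idl x} {F : Type} [Field F] [Algebra ℂ F] (R : Rd x g J F)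
    (hc : Cart x g) {t : ℤ} {a : ℕ} {f : K} (hf : Sec x g t a f) (h : ¬ J.Has g t a f) :
    J.colon hc hf = J :=
  main_ext fun i => le_antisymm (R.colon_le hc hf h i) (J.le_colon hc hf i)

end

end Pool.Agent.Lib.MP_bc213e_ag.OW
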