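import Pool.Agent.Lib.MP_bc213e_ag.OW.C.Defs

/-! Vanishing and the Hilbert polynomial on proper closed subschemes. -/

namespace Pool.Agent.Lib.MP_bc213e_ag.OW

open Pool.Agent.Lib.MP_bc213e_ag.Hyp Pool.Agent.Lib.MP_bc213e_ag.KBB MvPolynomial

variable {K ι : Type} [Field K] [Algebra ℂ K] {x g : ι → Kˣ}

/-- The killing section, when `L` is nef on the subvariety only. -/
theorem kill_nef [Fintype ι] {J : Idl x} {F : Type} [Field F] [Algebra ℂ F] (R : Rd x g J F)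
    (hc : Cart x g) (hn : Nef R.x' R.g') : ∃ (δ : ℕ) (d : K), Sec x g 0 δ d ∧ ¬ J.Has g 0 δ d ∧
      ∀ (t a : ℕ) (θ : ι → ι → K), J.Coc g t a θ →
        J.Cob g t (a + δ) fun i l => d * θ i l := by
  classical
  obtain ⟨δ, d', hd0, hd', H⟩ := ua0 R.x' R.g' R.i₀ R.one R.gen (R.cart hc) hn
  obtain ⟨d, hd, hρ⟩ := R.lift δ hd'
  refine ⟨δ, d, hd, fun h => hd0 ?_, fun t a θ hθ => ?_⟩
  · rw [← hρ, ← fr_zero x g]
    exact (R.has_iff hd).1 h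
  have hfr : ∀ i, fr x g t (a + δ) i = fr x g 0 δ i * fr x g t a i := fun i => by
    rw [← fr_add, zero_add, add_comm]
  obtain ⟨b, hb⟩ := H t a (fun l => R.ρ (θ R.i₀ l / fr x g t a R.i₀)) fun i l => by
    obtain ⟨h1, h2, -⟩ := kill_l2 R i l (hθ.1 i l)
    rwa [kill_coc R hθ, (kill_fr R i h1).2, mul_div_cancel_right₀ _ (fr_ne _ _ _ _ _)]
  choose r hr hr' using fun i => R.surj_chart i (hb i)
  obtain ⟨η, hη, hη'⟩ : ∃ η : ι → K, (∀ i, η i / fr x g t (a + δ) i ∈ chart x i) ∧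
      ∀ i : {i // (1 : K) ∉ J.J i}, η i / fr x g t (a + δ) i = r i := by
    refine ⟨fun i => if h : (1 : K) ∉ J.J i then r ⟨i, h⟩ * fr x g t (a + δ) i else 0,
      fun i => ?_, fun i => ?_⟩
    · dsimp only
      split_ifs with h
      · rw [zero_div]
        exact zero_mem _
      · rw [mul_div_cancel_right₀ _ (fr_ne _ _ _ _ _)]
        exact hr ⟨i, h⟩
    · dsimp only
      rw [dif_pos i.2, mul_div_cancel_right₀ _ (fr_ne _ _ _ _ _)]
  refine ⟨η, hη, fun i l => ?_⟩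
  have h1 : L2 x (OX x) i l ((d * θ i l - (η l - η i)) / fr x g t (a + δ) i) := by
    have a1 : L2 x (OX x) i l (d * θ i l / fr x g t (a + δ) i) := by
      rw [hfr, ← div_mul_div_comm]
      exact (Idl.top x).l2_mul ((Idl.top x).l2_of_mem l (hd i)) (hθ.1 i l)
    have a2 : L2 x (OX x) i l (η i / fr x g t (a + δ) i) := (Idl.top x).l2_of_mem l (hη i)
    have a3 : L2 x (OX x) i l (η l / fr x g t (a + δ) i) :=
      (Idl.top x).l2_fr hc ((Idl.top x).l2_of_mem i (hη l))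
    have e : (d * θ i l - (η l - η i)) / fr x g t (a + δ) i = d * θ i l / fr x g t (a + δ) i +
        (-(η l / fr x g t (a + δ) i) + η i / fr x g t (a + δ) i) := by ring
    rw [e]
    exact (Idl.top x).l2_add a1 ((Idl.top x).l2_add ((Idl.top x).l2_neg a3) a2)
  by_cases hi : (1 : K) ∈ J.J i
  · have h2 := J.l2_mul h1 (J.l2_of_mem l hi)
    rwa [mul_one] at h2
  by_cases hl : (1 : K) ∈ J.J l
  · have h2 := J.l2_mul h1 (J.l2_symm (J.l2_of_mem i hl))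
    rwa [mul_one] at h2
  obtain ⟨h2, -, h3⟩ := kill_l2 R ⟨i, hi⟩ ⟨l, hl⟩ h1
  refine h3 ((mul_eq_zero.1 ?_).resolve_right (fr_ne R.x' R.g' t (a + δ) ⟨i, hi⟩))
  have h4 : ∀ j : {i // (1 : K) ∉ J.J i}, R.ρ (η j / fr x g t (a + δ) R.i₀) =
      d' * R.ρ (θ R.i₀ j / fr x g t a R.i₀) - b := fun j => by
    rw [(kill_fr R j (R.le j _ (hη j))).2, hη', hr', div_mul_cancel₀ _ (fr_ne _ _ _ _ _)]
  have h5 : R.ρ (d * θ i l / fr x g t (a + δ) R.i₀) = d' * R.ρ (θ i l / fr x g t a R.i₀) := by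
    rw [hfr, ← div_mul_div_comm, R.ρ_mul _ (R.le R.i₀ _ (sec_iff_fr.1 hd R.i₀)) _
      (kill_fr R ⟨i, hi⟩ (kill_l2 R ⟨i, hi⟩ ⟨l, hl⟩ (hθ.1 i l)).1).1, fr_zero, hρ]
  rw [← (kill_fr R ⟨i, hi⟩ h2).2, sub_div, sub_div, map_sub, map_sub, h5, h4 ⟨l, hl⟩, h4 ⟨i, hi⟩,
    ← kill_coc R hθ ⟨i, hi⟩ ⟨l, hl⟩]
  ring

theorem good_prime_nz [Fintype ι] (hc : Cart x g) (hb : Below x g) (J : Idl x) (hJ : NZ J)
    (hp : J.Prime g) {i₀ : ι} (h0 : (1 : K) ∉ J.J i₀)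
    (ih : ∀ J' : Idl x, (∀ i, J.J i ≤ J'.J i) → (∃ i, ∃ r ∈ J'.J i, r ∉ J.J i) → Good g J') :
    Good g J := by
  obtain ⟨F, _, _, ⟨R⟩⟩ := exists_rd hc J hp h0
  have hcol : ∀ {t : ℤ} {a : ℕ} {f : K} (hf : Sec x g t a f), ¬ J.Has g t a f →
      J.colon hc hf = J := fun hf h =>
    main_ext fun i => le_antisymm (R.colon_le hc hf h i) (J.le_colon hc hf i)
  have hadj : ∀ {t : ℤ} {a : ℕ} {f : K} (hf : Sec x g t a f), ¬ J.Has g t a f →
      Good g (J.adj hc hf) := fun hf h => ih _ (J.le_adj hc hf) (main_adj hc J hf h)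
  obtain ⟨δ, d, hd, hnd, hk⟩ := kill_nef R hc (hb J hp hJ F R)
  obtain ⟨⟨a₂, h2⟩, -⟩ := hadj hd hnd
  have van : ∀ t a : ℕ, a₂ + δ ≤ a → J.H1z g t a := by
    intro t a ha
    obtain ⟨a', rfl⟩ : ∃ a', a = a' + δ := ⟨a - δ, by omega⟩
    have e1 := J.ext hc hd (t := t) (a := a')
    rw [add_zero, hcol hd hnd] at e1
    exact e1 (hk t a') (h2 t _ (by omega)).1
  obtain ⟨e, he⟩ := main_sec hc 1 i₀
  have s1 := main_sec_one x g i₀
  have n1 := main_not_has (g := g) h0 0 1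
  have n2 := main_not_has (g := g) h0 1 e
  refine ⟨⟨a₂ + δ, fun t a ha => ⟨van t a ha, R.fd hc t a⟩⟩,
    IsP.step (hadj s1 n1).2 (hadj he n2).2 (a₂ + δ) e ?_ ?_⟩
  · intro t a ha
    have e3 := J.add_rank hc s1 t a
    rw [add_zero, hcol s1 n1] at e3
    rw [e3 (van t a ha) (R.fd hc _ _), Nat.cast_add]
  · intro t a ha
    have e3 := J.add_rank hc he t a
    rw [hcol he n2] at e3
    have e4 : ((t + 1 : ℕ) : ℤ) = (t : ℤ) + 1 := by push_cast; rfl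
    rw [e4, e3 (van t a ha) (R.fd hc _ _), Nat.cast_add]

theorem good_nz [Fintype ι] (hc : Cart x g) (hb : Below x g) (J : Idl x) (hJ : NZ J) :
    Good g J := by
  refine Idl.induction (fun J => NZ J → Good g J) (fun J ih hJ => ?_) J hJ
  have ih' : ∀ J' : Idl x, (∀ i, J.J i ≤ J'.J i) → (∃ i, ∃ r ∈ J'.J i, r ∉ J.J i) → Good g J' :=
    fun J' h1 h2 => ih J' h1 h2 (nz_of_gt h2)
  by_cases h : ∀ i, (1 : K) ∈ J.J i
  · exact good_one J h
  obtain ⟨i₀, h0⟩ := not_forall.1 h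
  by_cases hp : J.Prime g
  · exact good_prime_nz hc hb J hJ hp h0 ih'
  obtain ⟨a, f, hf, h1, h2⟩ := not_prime hc hp
  exact good_ext hc J hf (ih' _ (J.le_colon hc hf) h1) (ih' _ (J.le_adj hc hf) h2)

theorem rep_nz [Fintype ι] (hc : Cart x g) (hb : Below x g) (J : Idl x) (hJ : NZ J) :
    ∃ P, Rep g J P := (good_nz hc hb J hJ).2

end Pool.Agent.Lib.MP_bc213e_ag.OW
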