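import Pool.Agent.Lib.MP_bc213e_ag.OW.C.Top

/-! The Hilbert polynomial is a lower bound for the number of sections. -/

namespace Pool.Agent.Lib.MP_bc213e_ag.OW

open Pool.Agent.Lib.MP_bc213e_ag.Hyp Pool.Agent.Lib.MP_bc213e_ag.KBB MvPolynomial

variable {K ι : Type} [Field K] [Algebra ℂ K] {x g : ι → Kˣ}

theorem repC_diff [Fintype ι] [Nonempty ι] (hc : Cart x g) {Q : P2} (hQ : RepC x g Q)
    {t₁ a₁ : ℕ} {f : K} (hf : Sec x g t₁ a₁ f) (h0 : f ≠ 0) {P : P2}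
    (hP : Rep g ((Idl.bot x).adj hc hf) P) : sh t₁ a₁ Q - Q = sh t₁ a₁ P := by
  obtain ⟨k, a₀, hQ⟩ := hQ
  obtain ⟨b₀, hP⟩ := hP
  refine eq_of_cone k (k * t₁ + a₀ + b₀) fun t a ha => ?_
  have e := (Idl.bot x).add_rank hc hf t a
  rw [colon_bot hc hf h0, ← Nat.cast_add] at e
  have h1 := hQ t a (by omega)
  have h2 := (hQ (t + t₁) (a + a₁) (by rw [mul_add]; omega)).2
  have h3 := hP (t + t₁) (a + a₁) (by omega)
  rw [hz, e h1.1 (fd_bot hc _ _), Nat.cast_add] at h2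
  rw [ev_sub, ev_sh, ev_sh, ← Nat.cast_add, ← Nat.cast_add, ← h1.2, ← h2, ← h3, hz, hz,
    add_sub_cancel_left]

theorem repC_tp [Fintype ι] [Nonempty ι] (hc : Cart x g) (hb : Below x g) {Q : P2}
    (hQ : RepC x g Q) {t₁ a₁ : ℕ} {f : K} (hf : Sec x g t₁ a₁ f) (h0 : f ≠ 0) :
    TP (sh t₁ a₁ Q - Q) := by
  obtain ⟨P, hP⟩ := rep_nz hc hb _ (nz_adj hc (Idl.bot x) hf h0)
  rw [repC_diff hc hQ hf h0 hP]
  exact tp_sh (tp_nz hc hb _ (nz_adj hc _ hf h0) hP) _ _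

theorem rank_le (hc : Cart x g) (J : Idl x) {t₀ : ℤ} {a₀ : ℕ} {f : K} (hf : Sec x g t₀ a₀ f)
    (t : ℤ) (a : ℕ) (h : FiniteDimensional ℂ (J.H0 g (t + t₀) (a + a₀)))
    (h' : FiniteDimensional ℂ ((J.adj hc hf).H0 g (t + t₀) (a + a₀))) :
    Module.finrank ℂ (J.H0 g (t + t₀) (a + a₀)) ≤
      Module.finrank ℂ ((J.colon hc hf).H0 g t a) +
        Module.finrank ℂ ((J.adj hc hf).H0 g (t + t₀) (a + a₀)) := by
  obtain ⟨μ, ν, h1, h2, -⟩ := J.exists_seq hc hf t a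
  have h4 := LinearMap.finrank_range_add_finrank_ker ν
  have h5 := Submodule.finrank_le (LinearMap.range ν)
  rw [h2, LinearMap.finrank_range_of_inj h1] at h4
  omega

theorem repC_low [Fintype ι] [Nonempty ι] (hc : Cart x g) (hb : Below x g) {Q : P2}
    (hQ : RepC x g Q) : ∃ a₀ : ℕ, ∀ t a : ℕ, a₀ ≤ a → ev Q t a ≤ hz g (Idl.bot x) t a := by
  obtain ⟨i⟩ := id ‹Nonempty ι›
  have hf : Sec x g ((0 : ℕ) : ℤ) 1 ((x i : K) ^ 1) := sec_x x g i 1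
  have h0 : (x i : K) ^ 1 ≠ 0 := pow_ne_zero _ (x i).ne_zero
  have hn := nz_adj hc (Idl.bot x) hf h0
  obtain ⟨⟨a₁, h1⟩, -⟩ := good_nz hc hb _ hn
  obtain ⟨P, hP⟩ := rep_nz hc hb _ hn
  have hd := repC_diff hc hQ hf h0 hP
  obtain ⟨a₂, h2⟩ := hP
  obtain ⟨k, a₀, hQ⟩ := hQ
  have step : ∀ t a : ℕ, a₁ + a₂ ≤ a → ev Q t (a + 1 : ℕ) ≤ hz g (Idl.bot x) t (a + 1) →
      ev Q t a ≤ hz g (Idl.bot x) t a := fun t a ha h => by
    have e := rank_le hc (Idl.bot x) hf t a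
    rw [colon_bot hc hf h0, ← Nat.cast_add, add_zero] at e
    have e1 : hz g (Idl.bot x) t (a + 1) ≤
        hz g (Idl.bot x) t a + hz g ((Idl.bot x).adj hc hf) t (a + 1) := by
      unfold hz
      exact_mod_cast e (fd_bot hc _ _) (h1 t (a + 1) (by omega)).2
    have e2 := congrArg (fun R => ev R t a) hd
    simp only [ev_sub, ev_sh, Nat.cast_zero, Nat.cast_one, add_zero] at e2
    rw [h2 t (a + 1) (by omega)] at e1
    push_cast at h e1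
    linarith
  refine ⟨a₁ + a₂, fun t a ha => ?_⟩
  have : ∀ n b : ℕ, a₁ + a₂ ≤ b → k * t + a₀ ≤ b + n → ev Q t b ≤ hz g (Idl.bot x) t b := by
    intro n
    induction n with
    | zero => exact fun b _ h => (hQ t b h).2.ge
    | succ n ih => exact fun b h h' => step t b h (ih (b + 1) (by omega) (by omega))
  exact this (k * t + a₀) a ha (by omega)

end Pool.Agent.Lib.MP_bc213e_ag.OW
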