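import Pool.Agent.Lib.MP_bc213e_ag.OW.C.Defs

/-! Polynomials in two variables: expansion, identity principle, sums. -/

namespace Pool.Agent.Lib.MP_bc213e_ag.OW

open Pool.Agent.Lib.MP_bc213e_ag.Hyp Pool.Agent.Lib.MP_bc213e_ag.KBB MvPolynomial

theorem dg_exists (P : P2) : ∃ d, Dg P d := by
  refine ⟨P.totalDegree, fun i j h => coeff_eq_zero_of_totalDegree_lt ?_⟩
  rw [Finset.sum_subset (Finset.subset_univ _) fun k _ hk => Finsupp.notMem_support_iff.1 hk]
  simpa using h

theorem ext_cf {P Q : P2} (h : ∀ i j, cf P i j = cf Q i j) : P = Q := by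
  refine MvPolynomial.ext _ _ fun m => ?_
  have e : m = Finsupp.single 0 (m 0) + Finsupp.single 1 (m 1) := by
    ext i
    fin_cases i <;> simp
  rw [e]
  exact h _ _

theorem ev_eq_sum {P : P2} {d : ℕ} (h : Dg P d) (t a : ℚ) :
    ev P t a = ∑ i ∈ Finset.range (d + 1), ∑ j ∈ Finset.range (d + 1), cf P i j * t ^ i * a ^ j := by
  have e : P = ∑ i ∈ Finset.range (d + 1), ∑ j ∈ Finset.range (d + 1),
      monomial (Finsupp.single 0 i + Finsupp.single 1 j) (cf P i j) := by
    refine ext_cf fun i j => ?_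
    have q : ∀ i' j' : ℕ, ((Finsupp.single 0 i' + Finsupp.single 1 j' : Fin 2 →₀ ℕ) =
        Finsupp.single 0 i + Finsupp.single 1 j) ↔ j' = j ∧ i' = i := fun i' j' =>
      ⟨fun e => ⟨by simpa using DFunLike.congr_fun e 1, by simpa using DFunLike.congr_fun e 0⟩,
        fun e => by rw [e.1, e.2]⟩
    conv_rhs => rw [cf]
    simp only [coeff_sum, coeff_monomial, q, ite_and, Finset.sum_ite_eq', Finset.mem_range]
    split_ifs with h1
    · simp only [Finset.sum_ite_eq', Finset.mem_range]
      split_ifs with h2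
      · rfl
      · exact h i j (by omega)
    · rw [Finset.sum_const_zero]
      exact h i j (by omega)
  conv_lhs => rw [e]
  simp only [ev, map_sum, eval_monomial]
  refine Finset.sum_congr rfl fun i _ => Finset.sum_congr rfl fun j _ => ?_
  rw [Finsupp.prod_fintype _ _ fun _ => pow_zero _]
  simp [mul_assoc]

theorem eq_of_cone {P Q : P2} (k a₀ : ℕ)
    (h : ∀ t a : ℕ, k * t + a₀ ≤ a → ev P t a = ev Q t a) : P = Q := by
  have e : bind₁ ![X 0, C (k : ℚ) * X 0 + C (a₀ : ℚ) + X 1] P =
      (bind₁ ![X 0, C (k : ℚ) * X 0 + C (a₀ : ℚ) + X 1] Q : P2) := by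
    refine funext_set (fun _ => Set.range (Nat.cast : ℕ → ℚ))
      (fun _ => Set.infinite_range_of_injective Nat.cast_injective) fun y hy => ?_
    obtain ⟨t, ht⟩ := hy 0 trivial
    obtain ⟨a, ha⟩ := hy 1 trivial
    have := h t (k * t + a₀ + a) (by omega)
    rw [poly_eval_bind, poly_eval_bind]
    simpa [ev, ← ht, ← ha] using this
  refine MvPolynomial.funext fun y => ?_
  have := congrArg (eval ![y 0, y 1 - k * y 0 - a₀]) e
  have q : y = ![y 0, k * y 0 + a₀ + (y 1 - k * y 0 - a₀)] := by
    funext i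
    fin_cases i <;> simp
  rw [poly_eval_bind, poly_eval_bind] at this
  rw [q]
  simpa using this

theorem tp_zero : TP 0 := by
  exact fun _ _ i j _ => (cf_zero i j).ge

theorem tp_add {P Q : P2} (hP : TP P) (hQ : TP Q) : TP (P + Q) := by
  intro d hd i j hij
  have key : ∀ n, Dg P (d + n) → Dg Q (d + n) → Dg P d ∧ Dg Q d := by
    intro n
    induction n with
    | zero => exact fun a b => ⟨a, b⟩
    | succ n ih =>
      intro a b
      have c : ∀ i j, d + n < i + j → cf P i j = 0 ∧ cf Q i j = 0 := fun i j h => by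
        rcases Nat.lt_or_ge (d + (n + 1)) (i + j) with h1 | h1
        · exact ⟨a i j h1, b i j h1⟩
        · have h2 := hP _ a i j (by omega)
          have h3 := hQ _ b i j (by omega)
          have h4 := hd i j (by omega)
          rw [cf_add] at h4
          exact ⟨by linarith, by linarith⟩
      exact ih (fun i j h => (c i j h).1) fun i j h => (c i j h).2
  obtain ⟨p, hp⟩ := dg_exists P
  obtain ⟨q, hq⟩ := dg_exists Q
  obtain ⟨a, b⟩ := key (p + q) (hp.mono (by omega)) (hq.mono (by omega))
  rw [cf_add]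
  exact add_nonneg (hP d a i j hij) (hQ d b i j hij)

end Pool.Agent.Lib.MP_bc213e_ag.OW
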