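import Pool.Agent.Lib.MP_bc213e_ag.OW.C.PolA

/-! Shifts of polynomials in two variables. -/

namespace Pool.Agent.Lib.MP_bc213e_ag.OW

open Pool.Agent.Lib.MP_bc213e_ag.Hyp Pool.Agent.Lib.MP_bc213e_ag.KBB MvPolynomial

theorem polb_mono (c : ℚ) (m n i j : ℕ) :
    cf (C c * X 0 ^ m * X 1 ^ n) i j = if m = i ∧ n = j then c else 0 := by
  classical
  rw [cf, X_pow_eq_monomial, X_pow_eq_monomial, C_mul_monomial, monomial_mul, coeff_monomial,
    mul_one, mul_one]
  refine if_congr ⟨fun h => ⟨?_, ?_⟩, ?_⟩ rfl rfl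
  · simpa using DFunLike.congr_fun h 0
  · simpa using DFunLike.congr_fun h 1
  · rintro ⟨rfl, rfl⟩
    rfl

theorem polb_sum {s : Finset ℕ} (f : ℕ → P2) (i j : ℕ) :
    cf (∑ m ∈ s, f m) i j = ∑ m ∈ s, cf (f m) i j := coeff_sum _ _ _

theorem polb_dbl (c : ℕ → ℕ → ℚ) (M N i j : ℕ) :
    cf (∑ m ∈ Finset.range M, ∑ n ∈ Finset.range N, C (c m n) * X 0 ^ m * X 1 ^ n) i j =
      if i < M ∧ j < N then c i j else 0 := by
  simp only [polb_sum, polb_mono, ite_and, Finset.sum_ite_irrel, Finset.sum_ite_eq',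
    Finset.sum_const_zero, Finset.mem_range]

theorem polb_exp {P : P2} {d : ℕ} (h : Dg P d) : P = ∑ m ∈ Finset.range (d + 1),
    ∑ n ∈ Finset.range (d + 1), C (cf P m n) * X 0 ^ m * X 1 ^ n := by
  refine ext_cf fun i j => ?_
  rw [polb_dbl]
  split_ifs with h1
  · rfl
  · exact h i j (by omega)

theorem polb_pow (c u v : ℚ) (m n i j : ℕ) :
    cf (C c * (X 0 + C u) ^ m * (X 1 + C v) ^ n) i j =
      c * (m.choose i * u ^ (m - i)) * (n.choose j * v ^ (n - j)) := by
  have e : (C c * (X 0 + C u) ^ m * (X 1 + C v) ^ n : P2) =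
      ∑ p ∈ Finset.range (m + 1), ∑ q ∈ Finset.range (n + 1),
        C (c * (m.choose p * u ^ (m - p)) * (n.choose q * v ^ (n - q))) * X 0 ^ p * X 1 ^ q := by
    rw [add_pow, add_pow, mul_assoc, Finset.sum_mul_sum, Finset.mul_sum]
    refine Finset.sum_congr rfl fun p _ => ?_
    rw [Finset.mul_sum]
    refine Finset.sum_congr rfl fun q _ => ?_
    simp only [map_mul, map_pow, map_natCast]
    ring
  rw [e, polb_dbl]
  split_ifs with h1
  · rfl
  · rcases not_and_or.1 h1 with h2 | h2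
    · rw [Nat.choose_eq_zero_of_lt (by omega : m < i)]
      simp
    · rw [Nat.choose_eq_zero_of_lt (by omega : n < j)]
      simp

theorem polb_shift {f : ℕ → ℚ} {d i : ℕ} (h : ∀ k, d < k → f k = 0) (h' : ∀ k, k < i → f k = 0) :
    ∑ k ∈ Finset.range (d + 1), f k = ∑ p ∈ Finset.range (d + 1), f (i + p) := by
  have e1 := Finset.sum_range_add f i (d + 1)
  rw [add_comm, Finset.sum_range_add, Finset.sum_eq_zero (s := Finset.range i) fun k _ =>
    h _ (by omega), Finset.sum_eq_zero (s := Finset.range i) fun k hk =>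
    h' _ (Finset.mem_range.1 hk), add_zero, zero_add] at e1
  exact e1

theorem polb_two {f : ℕ → ℚ} {d : ℕ} (h : ∀ k, f (k + 1 + 1) = 0) :
    ∑ k ∈ Finset.range (d + 1 + 1), f k = f 0 + f 1 := by
  rw [Finset.sum_range_succ', Finset.sum_range_succ', Finset.sum_eq_zero fun k _ => h k]
  ring

theorem cf_sh {P : P2} {d : ℕ} (h : Dg P d) (u v : ℚ) (i j : ℕ) :
    cf (sh u v P) i j = ∑ p ∈ Finset.range (d + 1), ∑ q ∈ Finset.range (d + 1),
      cf P (i + p) (j + q) * ((i + p).choose i * u ^ p) * ((j + q).choose j * v ^ q) := by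
  have e : cf (sh u v P) i j = ∑ m ∈ Finset.range (d + 1), ∑ n ∈ Finset.range (d + 1),
      cf P m n * (m.choose i * u ^ (m - i)) * (n.choose j * v ^ (n - j)) := by
    conv_lhs => rw [polb_exp h]
    simp only [sh, map_sum, map_mul, map_pow, bind₁_C_right, bind₁_X_right, polb_sum,
      Matrix.cons_val_zero, Matrix.cons_val_one, polb_pow]
  rw [e, polb_shift (i := i)
    (fun k hk => Finset.sum_eq_zero fun n _ => by rw [h k n (by omega), zero_mul, zero_mul])
    fun k hk => Finset.sum_eq_zero fun n _ => by simp [Nat.choose_eq_zero_of_lt hk]]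
  refine Finset.sum_congr rfl fun p _ => ?_
  rw [polb_shift (i := j) (fun k hk => by rw [h _ k (by omega), zero_mul, zero_mul])
    fun k hk => by simp [Nat.choose_eq_zero_of_lt hk]]
  simp only [Nat.add_sub_cancel_left]

theorem dg_sh {P : P2} {d : ℕ} (h : Dg P d) (u v : ℚ) : Dg (sh u v P) d := fun i j hij => by
  rw [cf_sh h]
  exact Finset.sum_eq_zero fun p _ => Finset.sum_eq_zero fun q _ => by
    rw [h _ _ (by omega), zero_mul, zero_mul]

theorem cf_sh_top {P : P2} {d : ℕ} (h : Dg P d) (u v : ℚ) {i j : ℕ} (hij : i + j = d) :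
    cf (sh u v P) i j = cf P i j := by
  rw [cf_sh h, Finset.sum_range_succ', Finset.sum_range_succ', Finset.sum_eq_zero fun p _ =>
    Finset.sum_eq_zero fun q _ => by rw [h _ _ (by omega), zero_mul, zero_mul],
    Finset.sum_eq_zero fun q _ => by rw [h _ _ (by omega), zero_mul, zero_mul]]
  simp

theorem cf_sh_next {P : P2} {d : ℕ} (h : Dg P (d + 1)) (u v : ℚ) {i j : ℕ} (hij : i + j = d) :
    cf (sh u v P) i j =
      cf P i j + u * (i + 1) * cf P (i + 1) j + v * (j + 1) * cf P i (j + 1) := by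
  rw [cf_sh h, polb_two fun p => Finset.sum_eq_zero fun q _ => by
      rw [h _ _ (by omega), zero_mul, zero_mul],
    polb_two fun q => by rw [h _ _ (by omega), zero_mul, zero_mul],
    polb_two fun q => by rw [h _ _ (by omega), zero_mul, zero_mul], h (i + 1) (j + 1) (by omega)]
  simp
  ring

theorem sh_sh_neg (u v : ℚ) (P : P2) : sh (-u) (-v) (sh u v P) = P :=
  eq_of_cone 0 0 fun t a _ => by rw [ev_sh, ev_sh, neg_add_cancel_right, neg_add_cancel_right]

theorem tp_sh {P : P2} (h : TP P) (u v : ℚ) : TP (sh u v P) := fun d hd i j hij => by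
  have h1 := dg_sh hd (-u) (-v)
  rw [sh_sh_neg] at h1
  rw [cf_sh_top h1 u v hij]
  exact h d h1 i j hij

theorem dg_sh_sub {P : P2} {d : ℕ} (h : Dg P (d + 1)) (u v : ℚ) : Dg (sh u v P - P) d :=
    fun i j hij => by
  rw [cf_sub]
  rcases (show i + j = d + 1 ∨ d + 1 < i + j by omega) with h1 | h1
  · rw [cf_sh_top h u v h1, sub_self]
  · rw [dg_sh h u v i j h1, h i j h1, sub_self]

end Pool.Agent.Lib.MP_bc213e_ag.OW
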