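import Pool.Agent.Lib.MP_bc213e_ag.OW.C.PolB

/-! Signs of top coefficients. -/

namespace Pool.Agent.Lib.MP_bc213e_ag.OW

open Pool.Agent.Lib.MP_bc213e_ag.Hyp Pool.Agent.Lib.MP_bc213e_ag.KBB MvPolynomial

theorem polc_le (d : ℕ) : ∀ c : ℕ → ℚ, 0 < c d → ∃ ε : ℚ, 0 < ε ∧ ∃ N₀ : ℕ, ∀ N : ℕ, N₀ ≤ N →
    ε ≤ ∑ n ∈ Finset.range (d + 1), c n * (N : ℚ) ^ n := by
  induction d with
  | zero => exact fun c h => ⟨c 0, h, 0, fun N _ => by simp⟩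
  | succ d ih =>
    intro c h
    obtain ⟨ε, hε, N₀, hN⟩ := ih (fun n => c (n + 1)) h
    obtain ⟨N₁, h1⟩ := exists_nat_ge ((ε - c 0) / ε)
    refine ⟨ε, hε, max N₀ N₁, fun N hm => ?_⟩
    have h2 : (ε - c 0) / ε ≤ N := h1.trans (Nat.cast_le.2 ((le_max_right _ _).trans hm))
    have h3 := mul_le_mul_of_nonneg_right (hN N ((le_max_left _ _).trans hm)) (Nat.cast_nonneg N)
    rw [div_le_iff₀ hε] at h2
    rw [Finset.sum_mul] at h3
    rw [Finset.sum_range_succ']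
    simp only [pow_succ, ← mul_assoc, pow_zero, mul_one]
    linarith

theorem sum_pos_of_top (c : ℕ → ℚ) (d : ℕ) (h : 0 < c d) :
    ∃ N₀ : ℕ, ∀ N : ℕ, N₀ ≤ N → 0 < ∑ n ∈ Finset.range (d + 1), c n * (N : ℚ) ^ n := by
  obtain ⟨ε, hε, N₀, hN⟩ := polc_le d c h
  exact ⟨N₀, fun N hm => hε.trans_le (hN N hm)⟩

theorem cf_nonneg_of_line {P : P2} {d : ℕ} (h : Dg P d) (a₀ : ℚ)
    (h0 : ∀ t : ℕ, 0 ≤ ev P t a₀) : 0 ≤ cf P d 0 := by
  by_contra hn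
  have h1 : ∑ j ∈ Finset.range (d + 1), cf P d j * a₀ ^ j = cf P d 0 := by
    rw [Finset.sum_range_succ', Finset.sum_eq_zero fun j _ => by
      rw [h d (j + 1) (by omega), zero_mul], zero_add, pow_zero, mul_one]
  obtain ⟨N, hN⟩ := sum_pos_of_top (fun i => -∑ j ∈ Finset.range (d + 1), cf P i j * a₀ ^ j) d
    (by rw [h1]; linarith)
  have h2 := hN N le_rfl
  have h3 := h0 N
  rw [ev_eq_sum h] at h3
  simp only [neg_mul, Finset.sum_neg_distrib, Finset.sum_mul, mul_right_comm _ (a₀ ^ _)] at h2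
  linarith

theorem tp_step {P : P2} (h1 : TP (sh 0 1 P - P)) (a₀ : ℚ) (h0 : ∀ t : ℕ, 0 ≤ ev P t a₀) :
    TP P := by
  intro d hd i j hij
  rcases j with _ | j
  · obtain rfl : i = d := hij
    exact cf_nonneg_of_line hd a₀ h0
  · obtain rfl : d = i + j + 1 := hij.symm
    have h2 := h1 (i + j) (dg_sh_sub hd 0 1) i j rfl
    rw [cf_sub, cf_sh_next hd 0 1 rfl, zero_mul, zero_mul, add_zero, one_mul,
      add_sub_cancel_left] at h2
    exact nonneg_of_mul_nonneg_right h2 (by positivity)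

theorem not_dg_one {P : P2} (b₀ : ℕ)
    (h : ∀ b : ℕ, b₀ ≤ b → ((b : ℚ) + 1) ^ 2 ≤ ev P 0 (2 * b)) : ¬ Dg P 1 := by
  intro hd
  obtain ⟨N, hN⟩ := exists_nat_ge (|cf P 0 0| + 2 * |cf P 0 1|)
  have h1 := h (max b₀ N) (le_max_left _ _)
  have h2 : |cf P 0 0| + 2 * |cf P 0 1| ≤ (max b₀ N : ℕ) :=
    hN.trans (Nat.cast_le.2 (le_max_right _ _))
  have h3 : (0 : ℚ) ≤ (max b₀ N : ℕ) := Nat.cast_nonneg _
  rw [ev_eq_sum hd] at h1
  generalize ((max b₀ N : ℕ) : ℚ) = b at h1 h2 h3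
  simp [Finset.sum_range_succ] at h1
  nlinarith [le_abs_self (cf P 0 0), le_abs_self (cf P 0 1), abs_nonneg (cf P 0 0),
    abs_nonneg (cf P 0 1), mul_le_mul_of_nonneg_right (le_abs_self (cf P 0 1)) h3,
    mul_le_mul_of_nonneg_right h2 h3]

end Pool.Agent.Lib.MP_bc213e_ag.OW
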