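import Pool.Agent.Lib.MP_bc213e_ag.OW.C.Good
import Pool.Agent.Lib.MP_bc213e_ag.OW.C.PolC

/-! The top coefficients of the Hilbert polynomial of a proper closed subscheme. -/

namespace Pool.Agent.Lib.MP_bc213e_ag.OW

open Pool.Agent.Lib.MP_bc213e_ag.Hyp Pool.Agent.Lib.MP_bc213e_ag.KBB MvPolynomial

variable {K ι : Type} [Field K] [Algebra ℂ K] {x g : ι → Kˣ}

theorem rep_ext [Fintype ι] (hc : Cart x g) (hb : Below x g) {J : Idl x} (hJ : NZ J) {δ : ℕ}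
    {f : K} (hf : Sec x g 0 δ f) {P P₁ P₂ : P2} (h : Rep g J P) (h1 : Rep g (J.colon hc hf) P₁)
    (h2 : Rep g (J.adj hc hf) P₂) : sh 0 δ P = P₁ + sh 0 δ P₂ := by
  obtain ⟨a₀, h⟩ := h
  obtain ⟨a₁, h1⟩ := h1
  obtain ⟨a₂, h2⟩ := h2
  obtain ⟨⟨b₀, g0⟩, -⟩ := good_nz hc hb J hJ
  obtain ⟨⟨b₁, g1⟩, -⟩ := good_nz hc hb _ (hJ.mono (J.le_colon hc hf))
  refine eq_of_cone 0 (a₀ + a₁ + a₂ + b₀ + b₁) fun t a ha => ?_
  have e3 := J.add_rank hc hf t a (g1 t a (by omega)).1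
  rw [add_zero] at e3
  have e4 := e3 (g0 t (a + δ) (by omega)).2
  rw [ev_add, ev_sh, ev_sh, add_zero, ← Nat.cast_add, ← h t _ (by omega), ← h1 t _ (by omega),
    ← h2 t _ (by omega), hz, hz, hz, e4, Nat.cast_add]

theorem tp_nz [Fintype ι] (hc : Cart x g) (hb : Below x g) (J : Idl x) (hJ : NZ J) {P : P2}
    (h : Rep g J P) : TP P := by
  revert hJ P
  refine Idl.induction (fun J => NZ J → ∀ P, Rep g J P → TP P) (fun J ih hJ P h => ?_) J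
  by_cases h1 : ∀ i, (1 : K) ∈ J.J i
  · obtain ⟨a₀, h⟩ := h
    have e : P = 0 := eq_of_cone 0 a₀ fun t a ha => by
      rw [← h t a (by omega), hz, J.h0_of_one h1, finrank_bot, Nat.cast_zero, ev_zero]
    exact e ▸ tp_zero
  obtain ⟨i₀, h0⟩ := not_forall.1 h1
  by_cases hp : J.Prime g
  · obtain ⟨F, _, _, ⟨R⟩⟩ := exists_rd hc J hp h0
    have hf := main_sec_one x g i₀
    have hn := main_not_has (g := g) h0 0 1
    have n2 := hJ.mono (J.le_adj hc hf)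
    obtain ⟨P₂, p2⟩ := rep_nz hc hb _ n2
    have e := rep_ext hc hb hJ hf h ((colon_prime R hc hf hn).symm ▸ h) p2
    have t2 := tp_sh (ih _ (J.le_adj hc hf) (main_adj hc J hf hn) n2 P₂ p2) 0 1
    obtain ⟨a₀, h⟩ := h
    refine tp_step ?_ a₀ fun t => ?_
    · rw [Nat.cast_one] at e
      rwa [e, add_sub_cancel_left]
    · rw [← h t a₀ le_rfl]
      exact Nat.cast_nonneg _
  · obtain ⟨a, f, hf, c1, c2⟩ := not_prime hc hp
    obtain ⟨P₁, p1⟩ := rep_nz hc hb _ (nz_of_gt c1)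
    obtain ⟨P₂, p2⟩ := rep_nz hc hb _ (nz_of_gt c2)
    have t1 := ih _ (J.le_colon hc hf) c1 (nz_of_gt c1) P₁ p1
    have t2 := ih _ (J.le_adj hc hf) c2 (nz_of_gt c2) P₂ p2
    have t3 := tp_sh (tp_add t1 (tp_sh t2 0 a)) (-0) (-a)
    rwa [← rep_ext hc hb hJ hf h p1 p2, sh_sh_neg] at t3

end Pool.Agent.Lib.MP_bc213e_ag.OW
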