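import Pool.Agent.Lib.MP_bc213e_ag.OW.C.Defs

/-! The transcendence degree drops on a proper subvariety. -/

namespace Pool.Agent.Lib.MP_bc213e_ag.OW

open Pool.Agent.Lib.MP_bc213e_ag.Hyp Pool.Agent.Lib.MP_bc213e_ag.KBB MvPolynomial

variable {K ι : Type} [Field K] [Algebra ℂ K] {x g : ι → Kˣ}

theorem tr_option {A F κ : Type} [CommRing A] [IsDomain A] [Algebra ℂ A] [Field F] [Algebra ℂ F]
    (φ : A →ₐ[ℂ] F) (b : κ → A) (hb : AlgebraicIndependent ℂ fun k => φ (b k)) {r : A}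
    (h0 : r ≠ 0) (hr : φ r = 0) : AlgebraicIndependent ℂ fun o : Option κ => o.elim r b := by
  have hb' : AlgebraicIndependent ℂ b := AlgebraicIndependent.of_comp φ hb
  refine (hb'.option_iff_transcendental r).2 fun h => ?_
  obtain ⟨⟨c, hc⟩, hc0, d, hd⟩ := h.exists_nonzero_dvd (mem_nonZeroDivisors_of_ne_zero h0)
  have hc' := hc
  rw [Algebra.adjoin_range_eq_range_aeval] at hc'
  obtain ⟨p, hp⟩ := hc'
  have hp' : aeval b p = c := hp
  have h1 : φ c = 0 := by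
    have h2 : c = r * d := hd
    rw [h2, map_mul, hr, zero_mul]
  have h3 : aeval (fun k => φ (b k)) p = 0 := by
    rw [← h1, ← hp', ← AlgHom.comp_apply, comp_aeval]
  have h4 : p = 0 := hb.eq_zero_of_aeval_eq_zero p h3
  refine hc0 (Subtype.ext ?_)
  change c = 0
  rw [← hp', h4, map_zero]

theorem rd_trdeg [Fintype ι] {J : Idl x} {F : Type} [Field F] [Algebra ℂ F] (R : Rd x g J F)
    (hJ : NZ J) : ∃ m : ℕ, Algebra.trdeg ℂ F = m ∧ ((m + 1 : ℕ) : Cardinal) ≤ Algebra.trdeg ℂ K := by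
  classical
  obtain ⟨m, hm⟩ := hyp_trdeg _ R.gen
  obtain ⟨y, hy, htb, -⟩ := Hyp.nn _ R.gen hm
  have h1 : ∀ l, ∃ r : chart x R.i₀, R.ρ r = y l := fun l => by
    have h2 : y l ∈ chart R.x' R.i₀ := by
      refine (Submodule.span_le (p := Subalgebra.toSubmodule (chart R.x' R.i₀))).2 ?_ (hy l)
      rintro _ ⟨i, rfl⟩
      have h3 := Basic_mem R.x' R.i₀ i
      rwa [R.one, Units.val_one, div_one] at h3
    obtain ⟨r, hr, h3⟩ := R.surj_chart _ h2
    exact ⟨⟨r, hr⟩, h3⟩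
  choose b hb using h1
  let φ : chart x R.i₀ →ₐ[ℂ] F := AlgHom.ofLinearMap (R.ρ ∘ₗ (chart x R.i₀).val.toLinearMap)
    R.ρ_one fun a c => R.ρ_mul _ (R.le _ _ a.2) _ (R.le _ _ c.2)
  obtain ⟨i, r, hr, h0⟩ := hJ
  obtain ⟨e, he⟩ := J.glue i R.i₀ r hr
  have h4 := tr_option φ b (by
    have h5 : (fun k => φ (b k)) = y := funext hb
    rw [h5]
    exact htb.1) (r := ⟨_, J.le _ _ he⟩) (fun h => mul_ne_zero h0
      (pow_ne_zero e (div_ne_zero (Units.ne_zero _) (Units.ne_zero _))) (congrArg Subtype.val h))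
    ((R.ker _ _ (J.le _ _ he)).2 he)
  have h6 := (h4.map' (f := (chart x R.i₀).val) Subtype.val_injective).cardinalMk_le_trdeg
  refine ⟨m, hm, ?_⟩
  simpa using h6

end Pool.Agent.Lib.MP_bc213e_ag.OW
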