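import Pool.Agent.Lib.MP_bc213e_ag.OW.C.Good
import Pool.Agent.Lib.MP_bc213e_ag.OW.C.Cone

/-! Vanishing and lifting above an effective slope. -/

namespace Pool.Agent.Lib.MP_bc213e_ag.OW

open Pool.Agent.Lib.MP_bc213e_ag.Hyp Pool.Agent.Lib.MP_bc213e_ag.KBB MvPolynomial

variable {K ι : Type} [Field K] [Algebra ℂ K] {x g : ι → Kˣ}

theorem h1C_bot [Fintype ι] [Nonempty ι] (hc : Cart x g) (hb : Below x g) (he : Eff x g) {T : ℕ}
    (hT : 0 < T) : H1C g T (Idl.bot x) := by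
  obtain ⟨t₁, a₁, ht, h1, f, h0, hf⟩ := he T
  obtain ⟨Q, k, a₂, hQ⟩ := exists_repC hc
  obtain ⟨⟨a₃, h3⟩, -⟩ := good_nz hc hb _ (nz_adj hc (Idl.bot x) hf h0)
  obtain ⟨a₀, ha₀⟩ : ∃ a₀, a₀ = k * t₁ + a₂ + a₃ := ⟨_, rfl⟩
  have key : ∀ t a : ℕ, a₁ * t + t₁ * a₀ ≤ t₁ * a → (Idl.bot x).H1z g t a := by
    intro t
    induction t using Nat.strong_induction_on with
    | _ t ih =>
      intro a ha
      have h4 : a₀ ≤ a := Nat.le_of_mul_le_mul_left (le_of_add_le_right ha) ht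
      rcases lt_or_ge t t₁ with h | h
      · have := Nat.mul_le_mul_left k h.le
        exact (hQ t a (by omega)).1
      · obtain ⟨t', rfl⟩ := Nat.exists_eq_add_of_le' h
        have h5 : a₁ ≤ a := Nat.le_of_mul_le_mul_left (by nlinarith) ht
        obtain ⟨a', rfl⟩ := Nat.exists_eq_add_of_le' h5
        have z : ((Idl.bot x).colon hc hf).H1z g t' a' := by
          rw [colon_bot hc hf h0]
          exact ih t' (by omega) a' (by nlinarith)
        have h6 := (h3 (t' + t₁) (a' + a₁) (by omega)).1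
        rw [Nat.cast_add] at h6 ⊢
        exact (Idl.bot x).ext hc hf (fun θ hθ => (Idl.bot x).cob_mul hc hf (z θ hθ)) h6
  refine ⟨a₀, fun t a ha => key t a ?_⟩
  obtain ⟨n, rfl⟩ := Nat.exists_eq_add_of_le
    (Nat.le_of_mul_le_mul_left (le_of_add_le_right ha) hT)
  have h4 : t ≤ T * n := by
    rw [mul_add] at ha
    omega
  have h5 := Nat.mul_le_mul_left a₁ h4
  have h6 := Nat.mul_le_mul_right n h1
  nlinarith

theorem h1C_all [Fintype ι] [Nonempty ι] (hc : Cart x g) (hb : Below x g) (he : Eff x g) {T : ℕ}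
    (hT : 0 < T) (J : Idl x) : H1C g T J := by
  by_cases h : NZ J
  · obtain ⟨⟨a₀, h0⟩, -⟩ := good_nz hc hb J h
    exact ⟨a₀, fun t a ha => (h0 t a (Nat.le_of_mul_le_mul_left (le_of_add_le_right ha) hT)).1⟩
  · rw [eq_bot_of_not_nz h]
    exact h1C_bot hc hb he hT

theorem van_bot [Nonempty ι] (T : ℕ) : LiftC g T (Idl.bot x) := by
  obtain ⟨i₀⟩ := ‹Nonempty ι›
  refine ⟨0, fun t a _ s hs => ?_⟩
  have h : ∀ i, s i = s i₀ := fun i => sub_eq_zero.1
    ((div_eq_zero_iff.1 (lift_l2_bot (hs.2 i₀ i))).resolve_right (fr_ne x g t a i₀))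
  refine ⟨s i₀, fun i => ?_, fun i => ?_⟩
  · rw [← h i]
    exact hs.1 i
  · rw [h i, sub_self, zero_div]
    exact zero_mem _

theorem van_adj (hc : Cart x g) {T : ℕ} (hT : 0 < T) (h : ∀ J : Idl x, H1C g T J) {J : Idl x}
    (hJ : LiftC g T J) {c : ℕ} {f : K} (hf : Sec x g 0 c f) : LiftC g T (J.adj hc hf) := by
  obtain ⟨a₀, h0⟩ := hJ
  obtain ⟨a₁, h1⟩ := h (J.colon hc hf)
  refine ⟨a₀ + a₁ + c, fun t a ha s hs => ?_⟩
  have h5 := Nat.le_of_mul_le_mul_left (le_of_add_le_right ha) hT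
  obtain ⟨a', rfl⟩ : ∃ a', a = a' + c := ⟨a - c, by omega⟩
  simp only [mul_add] at ha
  have e1 := J.add_lift hc hf (h1 t a' (by omega)) (s := s)
  rw [add_zero] at e1
  obtain ⟨s', hs', h2⟩ := e1 hs
  obtain ⟨u, hu, h3⟩ := h0 t _ (by rw [mul_add]; omega) s' hs'
  refine ⟨u, hu, fun i => ?_⟩
  have h4 := sub_mem (J.le_adj hc hf i (h3 i)) (h2 i)
  rwa [← sub_div, Pi.sub_apply, show s' i - u - (s' i - s i) = s i - u by ring] at h4

theorem liftC_all [Fintype ι] [Nonempty ι] (hc : Cart x g) {T : ℕ} (hT : 0 < T)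
    (h : ∀ J : Idl x, H1C g T J) (J : Idl x) : LiftC g T J := by
  refine Idl.induction (fun J' => (∀ i, J'.J i ≤ J.J i) → LiftC g T J' → LiftC g T J)
    (fun J' ih hle hJ' => ?_) (Idl.bot x) (fun i => bot_le) (van_bot T)
  by_cases h' : ∀ i, J.J i ≤ J'.J i
  · rwa [main_ext fun i => le_antisymm (h' i) (hle i)]
  obtain ⟨i, hi⟩ := not_forall.1 h'
  obtain ⟨r, hr, hr'⟩ := SetLike.not_le_iff_exists.1 hi
  obtain ⟨c, h1⟩ := res_unif (g := g) J.mul fun l => J.glue i l r hr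
  have hf : Sec x g 0 c (r * (x i : K) ^ c) := fun l => J.le l _ (h1 c le_rfl l)
  refine ih (J'.adj hc hf) (J'.le_adj hc hf) ⟨i, _, J'.self_mem_adj hc hf i, ?_⟩
    (fun l u hu => ?_) (van_adj hc hT h hJ' hf)
  · rwa [res_fr, div_self (x i).ne_zero, one_pow, mul_one]
  · obtain ⟨s, hs, h2⟩ := (J'.mem_adj hc hf).1 hu
    have h3 := add_mem (hle l h2) (J.mul l _ hs _ (h1 c le_rfl l))
    rwa [sub_add_cancel] at h3

end Pool.Agent.Lib.MP_bc213e_ag.OW
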